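import Mathlib
import Pool.Agent.Helper894.Div.Main

set_option autoImplicit false

/-! From a space of weights to a finite set of points which is not `(2,k)`-divisible. -/

namespace Pool.Agent.V7H26.Div.Geo

open Finset Module Pool.Agent.Helper894.Div.Core Pool.Agent.Helper894.Div.KL
  Pool.Agent.Helper894.Div.Main Pool.Agent.Helper894.Div.Dep

variable {ι : Type} [Fintype ι] [DecidableEq ι]

lemma mpos (y : ι → ℝ) (i : ι) : i ∈ pos y ↔ 0 < y i := Pool.Agent.Helper894.Div.KL.mem_pos y i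
lemma mneg (y : ι → ℝ) (i : ι) : i ∈ neg y ↔ y i < 0 := Pool.Agent.Helper894.Div.KL.mem_neg y i

/-- Points with prescribed space of affine dependencies. -/
theorem realize (L : Submodule ℝ (ι → ℝ)) (d : ℕ) (hsum : ∀ y ∈ L, ∑ i, y i = 0)
    (hcard : Fintype.card ι = finrank ℝ L + d + 1) :
    ∃ p : ι → EuclideanSpace ℝ (Fin d),
      ∀ y : ι → ℝ, (∑ i, y i = 0 ∧ ∑ i, y i • p i = 0) ↔ y ∈ L := by
  classical
  have hne : Nonempty ι := Fintype.card_pos_iff.mp (by omega)
  obtain ⟨i₀⟩ := hne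
  let σ : (ι → ℝ) →ₗ[ℝ] ℝ :=
    { toFun := fun y => ∑ i, y i
      map_add' := by intro a b; simp [Finset.sum_add_distrib]
      map_smul' := by intro c a; simp [Finset.mul_sum] }
  set H := LinearMap.ker σ with hH
  have hLH : L ≤ H := fun y hy => hsum y hy
  have hσ : Function.Surjective σ := by
    intro c
    refine ⟨Pi.single i₀ c, ?_⟩
    show ∑ i, (Pi.single i₀ c : ι → ℝ) i = c
    simp
  have hHr : finrank ℝ H + 1 = Fintype.card ι := by
    have h1 := LinearMap.finrank_range_add_finrank_ker σ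
    rw [LinearMap.range_eq_top.mpr hσ, finrank_top, finrank_self,
      Module.finrank_fintype_fun_eq_card, ← hH] at h1
    omega
  set L' : Submodule ℝ H := Submodule.comap H.subtype L with hL'
  have hL'r : finrank ℝ L' = finrank ℝ L := (Submodule.comapSubtypeEquivOfLe hLH).finrank_eq
  have hq := Submodule.finrank_quotient_add_finrank L'
  have hfin : finrank ℝ (H ⧸ L') = finrank ℝ (EuclideanSpace ℝ (Fin d)) := by
    rw [finrank_euclideanSpace_fin]
    omega
  let e := LinearEquiv.ofFinrankEq (H ⧸ L') (EuclideanSpace ℝ (Fin d)) hfin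
  let ψ : H →ₗ[ℝ] EuclideanSpace ℝ (Fin d) := e.toLinearMap ∘ₗ L'.mkQ
  have hmem : ∀ i, (Pi.single i 1 - Pi.single i₀ 1 : ι → ℝ) ∈ H := by
    intro i
    rw [hH, LinearMap.mem_ker]
    show ∑ j, (Pi.single i 1 - Pi.single i₀ 1 : ι → ℝ) j = 0
    simp
  refine ⟨fun i => ψ ⟨_, hmem i⟩, ?_⟩
  intro y
  have key : ∀ hy : ∑ i, y i = 0, ∑ i, y i • ψ ⟨_, hmem i⟩ = ψ ⟨y, hy⟩ := by
    intro hy
    have h1 : (⟨y, hy⟩ : H) = ∑ i, y i • (⟨_, hmem i⟩ : H) := by
      apply Subtype.ext
      rw [AddSubmonoidClass.coe_finsetSum]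
      ext j
      rw [Finset.sum_apply]
      simp only [SetLike.val_smul, Pi.smul_apply, Pi.sub_apply, smul_eq_mul, mul_sub,
        Finset.sum_sub_distrib, Pi.single_apply]
      rw [← Finset.sum_mul, hy]
      simp
    rw [h1, map_sum]
    simp only [map_smul]
  constructor
  · rintro ⟨h1, h2⟩
    rw [key h1] at h2
    have h3 : L'.mkQ ⟨y, h1⟩ = 0 := by
      apply e.injective
      rw [map_zero]
      exact h2
    rw [Submodule.mkQ_apply, Submodule.Quotient.mk_eq_zero] at h3
    exact h3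
  · intro hy
    have h1 := hsum y hy
    refine ⟨h1, ?_⟩
    rw [key h1]
    have h3 : L'.mkQ ⟨y, h1⟩ = 0 := by
      rw [Submodule.mkQ_apply, Submodule.Quotient.mk_eq_zero]
      exact hy
    show e (L'.mkQ ⟨y, h1⟩) = 0
    rw [h3, map_zero]

variable {E : Type} [NormedAddCommGroup E] [NormedSpace ℝ E]

/-- Few points in a flat. -/
theorem flat (L : Submodule ℝ (ι → ℝ)) (p : ι → E)
    (hp : ∀ y : ι → ℝ, (∑ i, y i = 0 ∧ ∑ i, y i • p i = 0) ↔ y ∈ L) (k : ℕ)
    (F : AffineSubspace ℝ E) (hF : finrank ℝ F.direction = k) (hFd : FiniteDimensional ℝ F.direction)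
    (T : Finset ι) (hT : T.card = 2 * k + 2) (hTF : ∀ i ∈ T, p i ∈ F)
    (h3 : finrank ℝ (Lz L Tᶜ) ≤ k) : False := by
  classical
  obtain ⟨i₀, hi₀⟩ : T.Nonempty := card_pos.mp (by omega)
  have hdir : ∀ i : T, p i - p i₀ ∈ F.direction := fun i =>
    AffineSubspace.vsub_mem_direction (hTF i i.2) (hTF i₀ hi₀)
  obtain ⟨v, hv⟩ : ∃ v : T → F.direction, ∀ i, (v i : E) = p i - p i₀ :=
    ⟨fun i => ⟨p i - p i₀, hdir i⟩, fun _ => rfl⟩
  let Θ : (T → ℝ) →ₗ[ℝ] ℝ × F.direction :=
    { toFun := fun y => (∑ i, y i, ∑ i, y i • v i)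
      map_add' := by
        intro a b
        simp only [Pi.add_apply, Finset.sum_add_distrib, add_smul, Prod.mk_add_mk]
      map_smul' := by
        intro c a
        simp only [Pi.smul_apply, smul_eq_mul, Finset.mul_sum, Finset.smul_sum, mul_smul,
          Prod.smul_mk, RingHom.id_apply] }
  have h1 := LinearMap.finrank_range_add_finrank_ker Θ
  have h2 : finrank ℝ (LinearMap.range Θ) ≤ finrank ℝ (ℝ × F.direction) := Submodule.finrank_le _
  rw [Module.finrank_prod, finrank_self, hF] at h2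
  rw [Module.finrank_fintype_fun_eq_card, Fintype.card_coe, hT] at h1
  have hext : ∀ y : T → ℝ, y ∈ LinearMap.ker Θ →
      (fun i => if h : i ∈ T then y ⟨i, h⟩ else 0) ∈ Lz L Tᶜ := by
    intro y hy
    rw [LinearMap.mem_ker] at hy
    have ha : ∑ i, y i = 0 := congrArg Prod.fst hy
    have hb : ∑ i, y i • v i = 0 := congrArg Prod.snd hy
    have hb' : ∑ i : T, y i • (p i - p i₀) = 0 := by
      have := congrArg (fun z : F.direction => (z : E)) hb
      rw [AddSubmonoidClass.coe_finsetSum] at this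
      simpa only [SetLike.val_smul, hv, ZeroMemClass.coe_zero] using this
    have hgen : ∀ (M : Type) [AddCommMonoid M] (g : T → M),
        ∑ i, (if h : i ∈ T then g ⟨i, h⟩ else 0) = ∑ i, g i := by
      intro M _ g
      have s1 : ∑ i ∈ T, (if h : i ∈ T then g ⟨i, h⟩ else 0) =
          ∑ i, (if h : i ∈ T then g ⟨i, h⟩ else 0) := by
        apply Finset.sum_subset (subset_univ T)
        intro i _ hi
        simp [hi]
      rw [← s1, ← Finset.sum_coe_sort T]
      apply Finset.sum_congr rfl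
      intro i _
      simp
    rw [mem_Lz]
    constructor
    · rw [← hp]
      constructor
      · rw [hgen ℝ y]
        exact ha
      · have e1 : ∀ i, (if h : i ∈ T then y ⟨i, h⟩ else 0) • p i =
            (if h : i ∈ T then (fun j : T => y j • p j) ⟨i, h⟩ else 0) := by
          intro i
          by_cases h : i ∈ T
          · simp [h]
          · simp [h]
        rw [Finset.sum_congr rfl (fun i _ => e1 i), hgen E (fun j : T => y j • p j)]
        have e2 : ∑ i : T, y i • p i = ∑ i : T, y i • (p i - p i₀) + (∑ i, y i) • p i₀ := by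
          rw [Finset.sum_smul, ← Finset.sum_add_distrib]
          apply Finset.sum_congr rfl
          intro i _
          rw [smul_sub, sub_add_cancel]
        rw [e2, hb', ha, zero_smul, add_zero]
    · intro i hi
      rw [mem_compl] at hi
      simp [hi]
  have h4 : finrank ℝ (LinearMap.ker Θ) ≤ finrank ℝ (Lz L Tᶜ) := by
    let φ : LinearMap.ker Θ →ₗ[ℝ] Lz L Tᶜ :=
      { toFun := fun y => ⟨_, hext y y.2⟩
        map_add' := by
          intro a b
          apply Subtype.ext
          ext i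
          by_cases h : i ∈ T
          · simp [h]
          · simp [h]
        map_smul' := by
          intro c a
          apply Subtype.ext
          ext i
          by_cases h : i ∈ T
          · simp [h]
          · simp [h] }
    refine LinearMap.finrank_le_finrank_of_injective (f := φ) ?_
    intro a b hab
    apply Subtype.ext
    ext i
    have := congrFun (congrArg (fun z : Lz L Tᶜ => (z : ι → ℝ)) hab) i
    simpa [φ] using this
  omega

/-- No good partition. -/
theorem not_div [DecidableEq E] [FiniteDimensional ℝ E] (L : Submodule ℝ (ι → ℝ)) (p : ι → E)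
    (hp : ∀ y : ι → ℝ, (∑ i, y i = 0 ∧ ∑ i, y i • p i = 0) ↔ y ∈ L)
    (hinj : Function.Injective p) (hnl : ∀ i, ∃ y ∈ L, y i ≠ 0) (k : ℕ)
    (hM : ∀ y ∈ L, (∀ i, y i ≠ 0) → rk L (pos y) + rk L (neg y) ≤ (finrank ℝ L : ℤ) + k) :
    ¬ Div2 k (univ.image p) := by
  classical
  rintro ⟨A, B, hAB, hd, hne, hk⟩
  set K : Set E := convexHull ℝ (A : Set E) ∩ convexHull ℝ (B : Set E) with hK
  set a : Finset ι := univ.filter (fun i => p i ∈ A) with ha
  set b : Finset ι := univ.filter (fun i => p i ∈ B) with hb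
  have hma : ∀ i, i ∈ a ↔ p i ∈ A := fun i => by simp [ha]
  have hmb : ∀ i, i ∈ b ↔ p i ∈ B := fun i => by simp [hb]
  have hab : ∀ i, i ∈ a ∨ i ∈ b := by
    intro i
    have : p i ∈ A ∪ B := by rw [hAB]; exact mem_image_of_mem _ (mem_univ i)
    rcases mem_union.mp this with h | h
    · exact Or.inl ((hma i).mpr h)
    · exact Or.inr ((hmb i).mpr h)
  have hdis : ∀ i, i ∈ a → i ∈ b → False := fun i h1 h2 =>
    (disjoint_left.mp hd) ((hma i).mp h1) ((hmb i).mp h2)
  have wts : ∀ (X : Finset E) (c : Finset ι), (∀ i, i ∈ c ↔ p i ∈ X) → X ⊆ univ.image p →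
      ∀ x ∈ convexHull ℝ (X : Set E), ∃ u : ι → ℝ, (∀ i, 0 ≤ u i) ∧ (∀ i, i ∉ c → u i = 0) ∧
        ∑ i, u i = 1 ∧ ∑ i, u i • p i = x := by
    intro X c hc hX x hx
    rw [Finset.mem_convexHull'] at hx
    obtain ⟨w, hw0, hw1, hwx⟩ := hx
    have hXc : X = c.image p := by
      ext z
      rw [mem_image]
      constructor
      · intro hz
        obtain ⟨i, _, rfl⟩ := mem_image.mp (hX hz)
        exact ⟨i, (hc i).mpr hz, rfl⟩
      · rintro ⟨i, hi, rfl⟩
        exact (hc i).mp hi
    refine ⟨fun i => if i ∈ c then w (p i) else 0, ?_, ?_, ?_, ?_⟩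
    · intro i
      show 0 ≤ (if i ∈ c then w (p i) else 0)
      split_ifs with h
      · exact hw0 _ ((hc i).mp h)
      · exact le_rfl
    · intro i hi
      simp [hi]
    · rw [Finset.sum_ite_mem, univ_inter]
      rw [hXc, Finset.sum_image (fun i _ j _ h => hinj h)] at hw1
      exact hw1
    · have e1 : ∀ i, (if i ∈ c then w (p i) else 0) • p i =
          if i ∈ c then w (p i) • p i else 0 := by
        intro i
        split_ifs <;> simp
      rw [Finset.sum_congr rfl (fun i _ => e1 i), Finset.sum_ite_mem, univ_inter]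
      rw [hXc, Finset.sum_image (fun i _ j _ h => hinj h)] at hwx
      exact hwx
  have hAX : A ⊆ univ.image p := by rw [← hAB]; exact subset_union_left
  have hBX : B ⊆ univ.image p := by rw [← hAB]; exact subset_union_right
  -- the cone
  have getC : ∀ x ∈ K, ∃ y ∈ L, (∀ i ∈ a, 0 ≤ y i) ∧ (∀ i ∈ b, y i ≤ 0) ∧
      ∑ i ∈ a, y i = 1 ∧ ∑ i ∈ a, y i • p i = x := by
    rintro x ⟨hxA, hxB⟩
    obtain ⟨u, u0, u1, u2, u3⟩ := wts A a hma hAX x hxA
    obtain ⟨v, v0, v1, v2, v3⟩ := wts B b hmb hBX x hxB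
    refine ⟨u - v, ?_, ?_, ?_, ?_, ?_⟩
    · rw [← hp]
      constructor
      · simp only [Pi.sub_apply, Finset.sum_sub_distrib, u2, v2, sub_self]
      · simp only [Pi.sub_apply, sub_smul, Finset.sum_sub_distrib, u3, v3, sub_self]
    · intro i hi
      have : v i = 0 := v1 i (fun h => hdis i hi h)
      simp [this, u0 i]
    · intro i hi
      have : u i = 0 := u1 i (fun h => hdis i h hi)
      simp [this, v0 i]
    · rw [← u2]
      have h1 : ∑ i ∈ a, u i = ∑ i, u i :=
        Finset.sum_subset (subset_univ a) (fun i _ hi => u1 i hi)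
      rw [← h1]
      apply Finset.sum_congr rfl
      intro i hi
      have : v i = 0 := v1 i (fun h => hdis i hi h)
      simp [this]
    · rw [← u3]
      have h1 : ∑ i ∈ a, u i • p i = ∑ i, u i • p i :=
        Finset.sum_subset (subset_univ a) (fun i _ hi => by rw [u1 i hi, zero_smul])
      rw [← h1]
      apply Finset.sum_congr rfl
      intro i hi
      have : v i = 0 := v1 i (fun h => hdis i hi h)
      simp [this]
  -- an element of the cone with largest support
  have hch : ∀ i, ∃ y ∈ L, (∀ j ∈ a, 0 ≤ y j) ∧ (∀ j ∈ b, y j ≤ 0) ∧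
      (y i = 0 → ∀ z ∈ L, (∀ j ∈ a, 0 ≤ z j) → (∀ j ∈ b, z j ≤ 0) → z i = 0) := by
    intro i
    by_cases h : ∃ z ∈ L, (∀ j ∈ a, 0 ≤ z j) ∧ (∀ j ∈ b, z j ≤ 0) ∧ z i ≠ 0
    · obtain ⟨z, h1, h2, h3, h4⟩ := h
      exact ⟨z, h1, h2, h3, fun h5 => absurd h5 h4⟩
    · push Not at h
      exact ⟨0, L.zero_mem, by simp, by simp, fun _ z h1 h2 h3 => h z h1 h2 h3⟩
  choose yc yL ya yb ymax using hch
  set ys : ι → ℝ := ∑ j, yc j with hys
  have hysL : ys ∈ L := L.sum_mem (fun j _ => yL j)
  have hysa : ∀ i ∈ a, 0 ≤ ys i := by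
    intro i hi
    rw [hys, Finset.sum_apply]
    exact Finset.sum_nonneg (fun j _ => ya j i hi)
  have hysb : ∀ i ∈ b, ys i ≤ 0 := by
    intro i hi
    rw [hys, Finset.sum_apply]
    exact Finset.sum_nonpos (fun j _ => yb j i hi)
  have hysmax : ∀ i, ys i = 0 → ∀ z ∈ L, (∀ j ∈ a, 0 ≤ z j) → (∀ j ∈ b, z j ≤ 0) → z i = 0 := by
    intro i h0
    apply ymax i
    rw [hys, Finset.sum_apply] at h0
    rcases hab i with hi | hi
    · exact (Finset.sum_eq_zero_iff_of_nonneg (fun j _ => ya j i hi)).mp h0 i (mem_univ i)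
    · exact (Finset.sum_eq_zero_iff_of_nonpos (fun j _ => yb j i hi)).mp h0 i (mem_univ i)
  obtain ⟨y', hy'L, hy's, hy'nz⟩ := perturb L ys hysL
    (univ.image (fun i : ι => (LinearMap.proj i : (ι → ℝ) →ₗ[ℝ] ℝ)))
    (by
      intro g hg
      obtain ⟨i, -, rfl⟩ := mem_image.mp hg
      obtain ⟨v, hv, hvi⟩ := hnl i
      exact ⟨v, hv, hvi⟩)
  have hnz : ∀ i, y' i ≠ 0 := fun i => hy'nz _ (mem_image_of_mem _ (mem_univ i))
  have swap : ∀ z ∈ L, (∀ j ∈ a, 0 ≤ z j) → (∀ j ∈ b, z j ≤ 0) → ∀ i,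
      (i ∈ a ↔ i ∈ pos y') ∨ z i = 0 := by
    intro z hz hza hzb i
    by_cases h0 : ys i = 0
    · right; exact hysmax i h0 z hz hza hzb
    · left
      have h1 := hy's i h0
      rw [mpos]
      constructor
      · intro hi
        have h2 := lt_of_le_of_ne (hysa i hi) (Ne.symm h0)
        exact (pos_iff_pos_of_mul_pos h1).mp h2
      · intro h2
        have h3 := (pos_iff_pos_of_mul_pos h1).mpr h2
        rcases hab i with hi | hi
        · exact hi
        · have := hysb i hi
          linarith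
  have hcon := hM y' hy'L hnz
  have getC2 : ∀ x ∈ K, ∃ y ∈ L, ∑ i ∈ pos y', y i = 1 ∧ ∑ i ∈ pos y', y i • p i = x := by
    intro x hx
    obtain ⟨y, h1, h2, h3, h4, h5⟩ := getC x hx
    refine ⟨y, h1, ?_, ?_⟩
    · rw [← h4]
      have e1 : ∀ c : Finset ι, ∑ i ∈ c, y i = ∑ i, if i ∈ c then y i else 0 := by
        intro c; rw [Finset.sum_ite_mem, univ_inter]
      rw [e1, e1]
      apply Finset.sum_congr rfl
      intro i _
      rcases swap y h1 h2 h3 i with h | h
      · by_cases hi : i ∈ a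
        · rw [if_pos hi, if_pos (h.mp hi)]
        · rw [if_neg hi, if_neg (fun h' => hi (h.mpr h'))]
      · rw [h]; simp
    · rw [← h5]
      have e1 : ∀ c : Finset ι, ∑ i ∈ c, y i • p i = ∑ i, if i ∈ c then y i • p i else 0 := by
        intro c; rw [Finset.sum_ite_mem, univ_inter]
      rw [e1, e1]
      apply Finset.sum_congr rfl
      intro i _
      rcases swap y h1 h2 h3 i with h | h
      · by_cases hi : i ∈ a
        · rw [if_pos hi, if_pos (h.mp hi)]
        · rw [if_neg hi, if_neg (fun h' => hi (h.mpr h'))]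
      · rw [h]; simp
  -- dimension count
  let L0 : Submodule ℝ (ι → ℝ) :=
    { carrier := {z | z ∈ L ∧ ∑ i ∈ pos y', z i = 0}
      zero_mem' := ⟨L.zero_mem, by simp⟩
      add_mem' := by
        rintro u v ⟨hu, hu2⟩ ⟨hv, hv2⟩
        refine ⟨L.add_mem hu hv, ?_⟩
        simp only [Pi.add_apply, Finset.sum_add_distrib, hu2, hv2, add_zero]
      smul_mem' := by
        rintro c u ⟨hu, hu2⟩
        refine ⟨L.smul_mem c hu, ?_⟩
        simp only [Pi.smul_apply, smul_eq_mul, ← Finset.mul_sum, hu2, mul_zero] }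
  have hL0 : finrank ℝ L0 + 1 ≤ finrank ℝ L := by
    apply Nat.succ_le_of_lt
    apply Submodule.finrank_lt_finrank_of_lt
    refine lt_of_le_of_ne (fun z hz => hz.1) ?_
    intro heq
    obtain ⟨x, hx⟩ := hne
    obtain ⟨y, h1, h2, -⟩ := getC2 x hx
    have h3 : y ∈ L0 := by rw [heq]; exact h1
    have h4 : ∑ i ∈ pos y', y i = 0 := h3.2
    linarith
  let τ : L0 →ₗ[ℝ] E :=
    { toFun := fun z => ∑ i ∈ pos y', (z : ι → ℝ) i • p i
      map_add' := by
        intro u v
        simp [Finset.sum_add_distrib, add_smul]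
      map_smul' := by
        intro c u
        simp [Finset.smul_sum, mul_smul] }
  have d1 := LinearMap.finrank_range_add_finrank_ker τ
  have d2 : finrank ℝ (vectorSpan ℝ K) ≤ finrank ℝ (LinearMap.range τ) := by
    apply Submodule.finrank_mono
    rw [vectorSpan_def, Submodule.span_le]
    rintro v ⟨x1, hx1, x2, hx2, rfl⟩
    obtain ⟨z1, m1, s1, t1⟩ := getC2 x1 hx1
    obtain ⟨z2, m2, s2, t2⟩ := getC2 x2 hx2
    refine ⟨⟨z1 - z2, L.sub_mem m1 m2, ?_⟩, ?_⟩
    · simp only [Pi.sub_apply, Finset.sum_sub_distrib, s1, s2, sub_self]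
    · show ∑ i ∈ pos y', (z1 - z2) i • p i = x1 -ᵥ x2
      simp only [Pi.sub_apply, sub_smul, Finset.sum_sub_distrib, t1, t2, vsub_eq_sub]
  have hsupp : ∀ z ∈ Lz L (neg y'), ∀ i, i ∉ pos y' → z i = 0 := by
    intro z hz i hi
    apply hz.2 i
    rw [mneg]
    rw [mpos] at hi
    exact lt_of_le_of_ne (not_lt.mp hi) (hnz i)
  have d3 : finrank ℝ (Lz L (neg y')) + finrank ℝ (Lz L (pos y')) ≤
      finrank ℝ (LinearMap.ker τ) := by
    have hm : ∀ z : Lz L (neg y') × Lz L (pos y'),
        ((z.1 : ι → ℝ) + (z.2 : ι → ℝ)) ∈ L0 := by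
      intro z
      refine ⟨L.add_mem z.1.2.1 z.2.2.1, ?_⟩
      have h1 : ∑ i ∈ pos y', (z.1 : ι → ℝ) i = ∑ i, (z.1 : ι → ℝ) i :=
        Finset.sum_subset (subset_univ _) (fun i _ hi => hsupp _ z.1.2 i hi)
      have h2 : ∑ i ∈ pos y', (z.2 : ι → ℝ) i = 0 :=
        Finset.sum_eq_zero (fun i hi => z.2.2.2 i hi)
      simp only [Pi.add_apply, Finset.sum_add_distrib, h1, h2, add_zero]
      exact ((hp _).mpr z.1.2.1).1
    let φ : (Lz L (neg y') × Lz L (pos y')) →ₗ[ℝ] LinearMap.ker τ :=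
      { toFun := fun z => ⟨⟨_, hm z⟩, by
          rw [LinearMap.mem_ker]
          show ∑ i ∈ pos y', ((z.1 : ι → ℝ) + (z.2 : ι → ℝ)) i • p i = 0
          have h1 : ∑ i ∈ pos y', (z.1 : ι → ℝ) i • p i = ∑ i, (z.1 : ι → ℝ) i • p i :=
            Finset.sum_subset (subset_univ _) (fun i _ hi => by
              rw [hsupp _ z.1.2 i hi, zero_smul])
          have h2 : ∑ i ∈ pos y', (z.2 : ι → ℝ) i • p i = 0 :=
            Finset.sum_eq_zero (fun i hi => by rw [z.2.2.2 i hi, zero_smul])
          simp only [Pi.add_apply, add_smul, Finset.sum_add_distrib, h1, h2, add_zero]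
          exact ((hp _).mpr z.1.2.1).2⟩
        map_add' := by
          intro u v
          apply Subtype.ext
          apply Subtype.ext
          show ((u + v).1 : ι → ℝ) + ((u + v).2 : ι → ℝ) =
            ((u.1 : ι → ℝ) + (u.2 : ι → ℝ)) + ((v.1 : ι → ℝ) + (v.2 : ι → ℝ))
          simp only [Prod.fst_add, Prod.snd_add, Submodule.coe_add]
          abel
        map_smul' := by
          intro c u
          apply Subtype.ext
          apply Subtype.ext
          show ((c • u).1 : ι → ℝ) + ((c • u).2 : ι → ℝ) =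
            c • ((u.1 : ι → ℝ) + (u.2 : ι → ℝ))
          simp only [Prod.smul_fst, Prod.smul_snd, Submodule.coe_smul, smul_add] }
    have hinjφ : Function.Injective φ := by
      rw [injective_iff_map_eq_zero]
      intro z hz
      have h0 : (z.1 : ι → ℝ) + (z.2 : ι → ℝ) = 0 := by
        have := congrArg (fun w : LinearMap.ker τ => ((w : L0) : ι → ℝ)) hz
        exact this
      have h1 : ∀ i, (z.1 : ι → ℝ) i = 0 := by
        intro i
        by_cases hi : i ∈ pos y'
        · have h2 := congrFun h0 i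
          simp only [Pi.add_apply, z.2.2.2 i hi, add_zero, Pi.zero_apply] at h2
          exact h2
        · exact hsupp _ z.1.2 i hi
      have h3 : (z.1 : ι → ℝ) = 0 := funext h1
      rw [h3, zero_add] at h0
      exact Prod.ext (Subtype.ext h3) (Subtype.ext h0)
    have := LinearMap.finrank_le_finrank_of_injective hinjφ
    rwa [Module.finrank_prod] at this
  simp only [rk] at hcon
  omega

end Pool.Agent.V7H26.Div.Geo
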