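import Mathlib
import Pool.Agent.Helper894.Div.Main
import Pool.Agent.V7H26.Div.Geo

set_option autoImplicit false

/-! Direct sums of spaces of weights. -/

namespace Pool.Agent.V7H26.Div.Conf

open Finset Module Pool.Agent.Helper894.Div.Core Pool.Agent.Helper894.Div.KL
  Pool.Agent.Helper894.Div.Main Pool.Agent.V7H26.Div.Geo

/-- Bookkeeping for a space of weights: its dimension is `f`; for every nowhere zero weight the
vectors vanishing on the positive side and the vectors vanishing on the negative side have total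
dimension at least `c`; few vectors are supported on a small set. -/
structure Conf (ι : Type) [Fintype ι] [DecidableEq ι] (L : Submodule ℝ (ι → ℝ))
    (f c m s : ℕ) : Prop where
  rank : finrank ℝ L = f
  loss : ∀ y ∈ L, (∀ i, y i ≠ 0) → c ≤ finrank ℝ (Lz L (pos y)) + finrank ℝ (Lz L (neg y))
  sparse : ∀ T : Finset ι, ∃ a ≤ m, ∃ b ≤ s,
    2 * finrank ℝ (Lz L Tᶜ) ≤ T.card + a + b ∧ 9 * a + b ≤ T.card
  noloop : ∀ i, ∃ y ∈ L, y i ≠ 0

section Sum

variable {ι κ : Type} [Fintype ι] [DecidableEq ι] [Fintype κ] [DecidableEq κ]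

/-- The direct sum. -/
def dsum (L₁ : Submodule ℝ (ι → ℝ)) (L₂ : Submodule ℝ (κ → ℝ)) :
    Submodule ℝ (ι ⊕ κ → ℝ) where
  carrier := {y | (fun i => y (Sum.inl i)) ∈ L₁ ∧ (fun j => y (Sum.inr j)) ∈ L₂}
  zero_mem' := ⟨L₁.zero_mem, L₂.zero_mem⟩
  add_mem' := by
    rintro a b ⟨h1, h2⟩ ⟨h3, h4⟩
    exact ⟨L₁.add_mem h1 h3, L₂.add_mem h2 h4⟩
  smul_mem' := by
    rintro c a ⟨h1, h2⟩
    exact ⟨L₁.smul_mem c h1, L₂.smul_mem c h2⟩

lemma finrank_dsum (L₁ : Submodule ℝ (ι → ℝ)) (L₂ : Submodule ℝ (κ → ℝ))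
    (A : Finset (ι ⊕ κ)) :
    finrank ℝ (Lz (dsum L₁ L₂) A) = finrank ℝ (Lz L₁ A.toLeft) + finrank ℝ (Lz L₂ A.toRight) := by
  let e : Lz (dsum L₁ L₂) A ≃ₗ[ℝ] Lz L₁ A.toLeft × Lz L₂ A.toRight :=
    { toFun := fun y => (⟨fun i => (y : ι ⊕ κ → ℝ) (Sum.inl i), y.2.1.1, fun i hi =>
          y.2.2 _ (mem_toLeft.mp hi)⟩,
        ⟨fun j => (y : ι ⊕ κ → ℝ) (Sum.inr j), y.2.1.2, fun i hi => y.2.2 _ (mem_toRight.mp hi)⟩)
      map_add' := by intro a b; rfl
      map_smul' := by intro c a; rfl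
      invFun := fun p => ⟨Sum.elim (p.1 : ι → ℝ) (p.2 : κ → ℝ), ⟨p.1.2.1, p.2.2.1⟩, by
        rintro (i | j) h
        · exact p.1.2.2 i (mem_toLeft.mpr h)
        · exact p.2.2.2 j (mem_toRight.mpr h)⟩
      left_inv := by
        intro y
        apply Subtype.ext
        ext (i | j) <;> rfl
      right_inv := by
        intro p
        rfl }
  rw [e.finrank_eq, Module.finrank_prod]

lemma toLeft_compl (T : Finset (ι ⊕ κ)) : (Tᶜ).toLeft = (T.toLeft)ᶜ := by
  ext i; simp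

lemma toRight_compl (T : Finset (ι ⊕ κ)) : (Tᶜ).toRight = (T.toRight)ᶜ := by
  ext i; simp

theorem Conf.sum {L₁ : Submodule ℝ (ι → ℝ)} {L₂ : Submodule ℝ (κ → ℝ)}
    {f₁ c₁ m₁ s₁ f₂ c₂ m₂ s₂ : ℕ} (h₁ : Conf ι L₁ f₁ c₁ m₁ s₁) (h₂ : Conf κ L₂ f₂ c₂ m₂ s₂) :
    Conf (ι ⊕ κ) (dsum L₁ L₂) (f₁ + f₂) (c₁ + c₂) (m₁ + m₂) (s₁ + s₂) := by
  refine ⟨?_, ?_, ?_, ?_⟩
  · have h := finrank_dsum L₁ L₂ ∅
    have e1 : (∅ : Finset (ι ⊕ κ)).toLeft = ∅ := by ext i; simp
    have e2 : (∅ : Finset (ι ⊕ κ)).toRight = ∅ := by ext i; simp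
    rw [Lz_empty, e1, e2, Lz_empty, Lz_empty, h₁.rank, h₂.rank] at h
    exact h
  · intro y hy hnz
    have e1 : (pos y).toLeft = pos (fun i => y (Sum.inl i)) := by
      ext i; simp [mpos]
    have e2 : (pos y).toRight = pos (fun i => y (Sum.inr i)) := by
      ext i; simp [mpos]
    have e3 : (neg y).toLeft = neg (fun i => y (Sum.inl i)) := by
      ext i; simp [mneg]
    have e4 : (neg y).toRight = neg (fun i => y (Sum.inr i)) := by
      ext i; simp [mneg]
    rw [finrank_dsum, finrank_dsum, e1, e2, e3, e4]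
    have g1 := h₁.loss _ hy.1 (fun i => hnz _)
    have g2 := h₂.loss _ hy.2 (fun i => hnz _)
    omega
  · intro T
    obtain ⟨a₁, ha₁, b₁, hb₁, u₁, v₁⟩ := h₁.sparse T.toLeft
    obtain ⟨a₂, ha₂, b₂, hb₂, u₂, v₂⟩ := h₂.sparse T.toRight
    have hc := Finset.card_toLeft_add_card_toRight (u := T)
    refine ⟨a₁ + a₂, by omega, b₁ + b₂, by omega, ?_, by omega⟩
    rw [finrank_dsum, toLeft_compl, toRight_compl]
    omega
  · rintro (i | j)
    · obtain ⟨y, hy, hyi⟩ := h₁.noloop i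
      exact ⟨Sum.elim y 0, ⟨hy, L₂.zero_mem⟩, hyi⟩
    · obtain ⟨y, hy, hyi⟩ := h₂.noloop j
      exact ⟨Sum.elim 0 y, ⟨L₁.zero_mem, hy⟩, hyi⟩

/-- The empty configuration. -/
theorem Conf.empty : Conf Empty ⊤ 0 0 0 0 := by
  refine ⟨?_, ?_, ?_, ?_⟩
  · rw [finrank_top, Module.finrank_fintype_fun_eq_card]
    rfl
  · intro y _ _
    exact Nat.zero_le _
  · intro T
    refine ⟨0, le_rfl, 0, le_rfl, ?_, by omega⟩
    have h1 := Submodule.finrank_le (Lz (⊤ : Submodule ℝ (Empty → ℝ)) Tᶜ)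
    rw [Module.finrank_fintype_fun_eq_card] at h1
    simp only [Fintype.card_empty] at h1
    omega
  · intro i
    exact i.elim

end Sum

section Const

variable (ι : Type) [Fintype ι] [DecidableEq ι]

/-- Constant weights. -/
def cst : Submodule ℝ (ι → ℝ) where
  carrier := {y | ∀ i j, y i = y j}
  zero_mem' := fun _ _ => rfl
  add_mem' := by
    intro a b ha hb i j
    simp only [Pi.add_apply, ha i j, hb i j]
  smul_mem' := by
    intro c a ha i j
    simp only [Pi.smul_apply, ha i j]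

lemma finrank_cst [Nonempty ι] : finrank ℝ (cst ι) = 1 := by
  obtain ⟨i₀⟩ := ‹Nonempty ι›
  let e : cst ι ≃ₗ[ℝ] ℝ :=
    { toFun := fun y => (y : ι → ℝ) i₀
      map_add' := by intro a b; rfl
      map_smul' := by intro c a; rfl
      invFun := fun r => ⟨fun _ => r, fun _ _ => rfl⟩
      left_inv := by
        intro y
        apply Subtype.ext
        ext i
        exact y.2 i₀ i
      right_inv := by
        intro r
        rfl }
  rw [e.finrank_eq, finrank_self]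

lemma cst_loss [Nonempty ι] (y : ι → ℝ) (hy : y ∈ cst ι) :
    1 ≤ finrank ℝ (Lz (cst ι) (pos y)) + finrank ℝ (Lz (cst ι) (neg y)) := by
  obtain ⟨i₀⟩ := ‹Nonempty ι›
  have key : pos y = ∅ ∨ neg y = ∅ := by
    rcases le_or_gt (y i₀) 0 with h | h
    · left
      ext i
      rw [mpos, hy i i₀]
      simp [not_lt.mpr h]
    · right
      ext i
      rw [mneg, hy i i₀]
      simp [h.le]
  haveI : Nonempty ι := ⟨i₀⟩
  have h1 := finrank_cst ι
  rcases key with h | h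
  · rw [h, Lz_empty, h1]; omega
  · rw [h, Lz_empty, h1]; omega

lemma cst_supp (T : Finset ι) (hT : T ≠ univ) : finrank ℝ (Lz (cst ι) Tᶜ) = 0 := by
  obtain ⟨i, hi⟩ : ∃ i, i ∉ T := by
    by_contra hc
    push Not at hc
    exact hT (by ext i; simp [hc i])
  have : Lz (cst ι) Tᶜ = ⊥ := by
    rw [eq_bot_iff]
    intro y hy
    rw [Submodule.mem_bot]
    ext j
    have h1 := hy.2 i (by rw [mem_compl]; exact hi)
    rw [hy.1 j i, h1]
    rfl
  rw [this, finrank_bot]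

theorem Conf.single : Conf Unit (cst Unit) 1 1 0 1 := by
  refine ⟨finrank_cst Unit, fun y hy _ => cst_loss Unit y hy, ?_, ?_⟩
  · intro T
    by_cases hT : T = univ
    · refine ⟨0, le_rfl, 1, le_rfl, ?_, ?_⟩
      · rw [hT, compl_univ, Lz_empty, finrank_cst]
        simp
      · rw [hT]
        simp
    · refine ⟨0, le_rfl, 0, by omega, ?_, by omega⟩
      rw [cst_supp Unit T hT]
      omega
  · intro i
    exact ⟨fun _ => 1, fun _ _ => rfl, one_ne_zero⟩

theorem Conf.pair : Conf Bool (cst Bool) 1 1 0 0 := by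
  refine ⟨finrank_cst Bool, fun y hy _ => cst_loss Bool y hy, ?_, ?_⟩
  · intro T
    by_cases hT : T = univ
    · refine ⟨0, le_rfl, 0, le_rfl, ?_, by omega⟩
      rw [hT, compl_univ, Lz_empty, finrank_cst]
      simp
    · refine ⟨0, le_rfl, 0, by omega, ?_, by omega⟩
      rw [cst_supp Bool T hT]
      omega
  · intro i
    exact ⟨fun _ => 1, fun _ _ => rfl, one_ne_zero⟩

end Const

end Pool.Agent.V7H26.Div.Conf
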