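import Mathlib
import Pool.Agent.Helper894.Div.Main
import Pool.Agent.V7H26.Div.Geo

set_option autoImplicit false

/-! Cutting a space of weights with generic positive hyperplanes. -/

namespace Pool.Agent.V7H26.Div.Cut

open Finset Module Pool.Agent.Helper894.Div.Core Pool.Agent.Helper894.Div.KL
  Pool.Agent.Helper894.Div.Main Pool.Agent.V7H26.Div.Geo

variable {ι : Type} [Fintype ι] [DecidableEq ι]

/-- Weighted sum. -/
def ws (w : ι → ℝ) : (ι → ℝ) →ₗ[ℝ] ℝ where
  toFun := fun y => ∑ i, w i * y i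
  map_add' := by
    intro a b
    simp only [Pi.add_apply, mul_add, Finset.sum_add_distrib]
  map_smul' := by
    intro c a
    simp only [Pi.smul_apply, smul_eq_mul, RingHom.id_apply, Finset.mul_sum]
    apply Finset.sum_congr rfl
    intro i _
    ring

lemma ws_apply (w y : ι → ℝ) : ws w y = ∑ i, w i * y i := rfl

lemma ws_comm (w y : ι → ℝ) : ws w y = ws y w := by
  rw [ws_apply, ws_apply]
  apply Finset.sum_congr rfl
  intro i _
  ring

/-- Positive weights in general position. -/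
theorem exists_w (L : Submodule ℝ (ι → ℝ)) : ∃ w : ι → ℝ, (∀ i, 0 < w i) ∧
    ∀ A : Finset ι, Lz L A ≠ ⊥ → ∃ z ∈ Lz L A, ws w z ≠ 0 := by
  classical
  have hch : ∀ A : Finset ι, ∃ z : ι → ℝ, Lz L A ≠ ⊥ → z ∈ Lz L A ∧ z ≠ 0 := by
    intro A
    by_cases h : Lz L A = ⊥
    · exact ⟨0, fun h' => absurd h h'⟩
    · obtain ⟨z, h1, h2⟩ := (Submodule.ne_bot_iff _).mp h
      exact ⟨z, fun _ => ⟨h1, h2⟩⟩
  choose z hz using hch
  obtain ⟨w, -, hw, hg⟩ := perturb (⊤ : Submodule ℝ (ι → ℝ)) (fun _ => 1) Submodule.mem_top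
    ((univ.filter (fun A : Finset ι => Lz L A ≠ ⊥)).image (fun A => ws (z A)))
    (by
      intro g hg
      obtain ⟨A, hA, rfl⟩ := mem_image.mp hg
      have h1 := hz A (mem_filter.mp hA).2
      refine ⟨z A, Submodule.mem_top, ?_⟩
      rw [ws_apply]
      intro h0
      apply h1.2
      ext i
      have h2 := (Finset.sum_eq_zero_iff_of_nonneg
        (fun i _ => mul_self_nonneg (z A i))).mp h0 i (mem_univ i)
      exact mul_self_eq_zero.mp h2)
  refine ⟨w, ?_, ?_⟩
  · intro i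
    have := hw i one_ne_zero
    linarith
  · intro A hA
    refine ⟨z A, (hz A hA).1, ?_⟩
    rw [ws_comm]
    exact hg _ (mem_image_of_mem _ (mem_filter.mpr ⟨mem_univ _, hA⟩))

/-- The vectors of `L` with weighted sum zero. -/
def cut (L : Submodule ℝ (ι → ℝ)) (w : ι → ℝ) : Submodule ℝ (ι → ℝ) := L ⊓ LinearMap.ker (ws w)

lemma cut_rank (L : Submodule ℝ (ι → ℝ)) (w : ι → ℝ)
    (hw : ∀ A : Finset ι, Lz L A ≠ ⊥ → ∃ z ∈ Lz L A, ws w z ≠ 0) (A : Finset ι) :
    finrank ℝ (Lz (cut L w) A) = finrank ℝ (Lz L A) - 1 := by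
  let ρ : Lz L A →ₗ[ℝ] ℝ := (ws w).comp (Lz L A).subtype
  let e : LinearMap.ker ρ ≃ₗ[ℝ] Lz (cut L w) A :=
    { toFun := fun z => ⟨((z : Lz L A) : ι → ℝ), ⟨z.1.2.1, z.2⟩, z.1.2.2⟩
      map_add' := by intro a b; rfl
      map_smul' := by intro c a; rfl
      invFun := fun z => ⟨⟨(z : ι → ℝ), ⟨z.2.1.1, z.2.2⟩⟩, z.2.1.2⟩
      left_inv := by intro z; rfl
      right_inv := by intro z; rfl }
  have h1 := LinearMap.finrank_range_add_finrank_ker ρ
  rw [e.finrank_eq] at h1
  by_cases h : Lz L A = ⊥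
  · have : finrank ℝ (Lz L A) = 0 := by rw [h, finrank_bot]
    omega
  · obtain ⟨z, hz, hz0⟩ := hw A h
    have hs : LinearMap.range ρ = ⊤ := by
      rw [LinearMap.range_eq_top]
      apply LinearMap.surjective
      intro h0
      apply hz0
      have := congrArg (fun g : Lz L A →ₗ[ℝ] ℝ => g ⟨z, hz⟩) h0
      exact this
    rw [hs, finrank_top, finrank_self] at h1
    omega

/-- Iterated generic cuts. -/
theorem cuts (L : Submodule ℝ (ι → ℝ)) : ∀ x : ℕ, ∃ L' ≤ L,
    (∀ A : Finset ι, finrank ℝ (Lz L' A) = finrank ℝ (Lz L A) - x) ∧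
    (1 ≤ x → ∃ w : ι → ℝ, (∀ i, 0 < w i) ∧ ∀ y ∈ L', ws w y = 0) := by
  intro x
  induction x with
  | zero => exact ⟨L, le_rfl, fun A => by omega, fun h => by omega⟩
  | succ x ih =>
    obtain ⟨L', h1, h2, -⟩ := ih
    obtain ⟨w, w0, w1⟩ := exists_w L'
    refine ⟨cut L' w, inf_le_left.trans h1, ?_, fun _ => ⟨w, w0, fun y hy => hy.2⟩⟩
    intro A
    rw [cut_rank L' w w1, h2]
    omega

/-- Rescaling. -/
def scale (L : Submodule ℝ (ι → ℝ)) (w : ι → ℝ) : Submodule ℝ (ι → ℝ) where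
  carrier := {y | (fun i => y i * (w i)⁻¹) ∈ L}
  zero_mem' := by
    show (fun i => (0 : ι → ℝ) i * (w i)⁻¹) ∈ L
    have : (fun i => (0 : ι → ℝ) i * (w i)⁻¹) = 0 := by ext i; simp
    rw [this]
    exact L.zero_mem
  add_mem' := by
    intro a b ha hb
    show (fun i => (a + b) i * (w i)⁻¹) ∈ L
    have : (fun i => (a + b) i * (w i)⁻¹) =
        (fun i => a i * (w i)⁻¹) + (fun i => b i * (w i)⁻¹) := by
      ext i; simp [add_mul]
    rw [this]
    exact L.add_mem ha hb
  smul_mem' := by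
    intro c a ha
    show (fun i => (c • a) i * (w i)⁻¹) ∈ L
    have : (fun i => (c • a) i * (w i)⁻¹) = c • (fun i => a i * (w i)⁻¹) := by
      ext i; simp [mul_assoc]
    rw [this]
    exact L.smul_mem c ha

lemma mem_scale (L : Submodule ℝ (ι → ℝ)) (w y : ι → ℝ) :
    y ∈ scale L w ↔ (fun i => y i * (w i)⁻¹) ∈ L := Iff.rfl

lemma scale_rank (L : Submodule ℝ (ι → ℝ)) (w : ι → ℝ) (hw : ∀ i, 0 < w i) (A : Finset ι) :
    finrank ℝ (Lz (scale L w) A) = finrank ℝ (Lz L A) := by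
  let e : Lz (scale L w) A ≃ₗ[ℝ] Lz L A :=
    { toFun := fun z => ⟨fun i => (z : ι → ℝ) i * (w i)⁻¹, z.2.1, fun i hi => by
        simp [z.2.2 i hi]⟩
      map_add' := by
        intro a b
        apply Subtype.ext
        ext i
        simp [add_mul]
      map_smul' := by
        intro c a
        apply Subtype.ext
        ext i
        simp [mul_assoc]
      invFun := fun z => ⟨fun i => (z : ι → ℝ) i * w i, by
        refine ⟨?_, fun i hi => by simp [z.2.2 i hi]⟩
        rw [mem_scale]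
        have : (fun i => (z : ι → ℝ) i * w i * (w i)⁻¹) = (z : ι → ℝ) := by
          ext i
          rw [mul_assoc, mul_inv_cancel₀ (hw i).ne', mul_one]
        rw [this]
        exact z.2.1⟩
      left_inv := by
        intro z
        apply Subtype.ext
        ext i
        show (z : ι → ℝ) i * (w i)⁻¹ * w i = (z : ι → ℝ) i
        rw [mul_assoc, inv_mul_cancel₀ (hw i).ne', mul_one]
      right_inv := by
        intro z
        apply Subtype.ext
        ext i
        show (z : ι → ℝ) i * w i * (w i)⁻¹ = (z : ι → ℝ) i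
        rw [mul_assoc, mul_inv_cancel₀ (hw i).ne', mul_one] }
  exact e.finrank_eq

end Pool.Agent.V7H26.Div.Cut
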