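import Mathlib
import Pool.Agent.Helper894.Div.Main
import Pool.Agent.V7H26.Div.Conf

set_option autoImplicit false

/-! The space of weights `f i + g j` on a three by three grid. -/

namespace Pool.Agent.V7H26.Div.KThree

open Finset Module Pool.Agent.Helper894.Div.Core Pool.Agent.Helper894.Div.KL
  Pool.Agent.Helper894.Div.Main Pool.Agent.V7H26.Div.Geo Pool.Agent.V7H26.Div.Conf

/-- Weights of the form `f i + g j`. -/
def K : Submodule ℝ (Fin 3 × Fin 3 → ℝ) where
  carrier := {z | ∀ i j, z (i, j) = z (i, 0) + z (0, j) - z (0, 0)}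
  zero_mem' := by intro i j; simp
  add_mem' := by
    intro a b ha hb i j
    simp only [Pi.add_apply, ha i j, hb i j]
    ring
  smul_mem' := by
    intro c a ha i j
    simp only [Pi.smul_apply, ha i j, smul_eq_mul]
    ring

lemma mem_K (z : Fin 3 × Fin 3 → ℝ) : z ∈ K ↔ ∀ i j, z (i, j) = z (i, 0) + z (0, j) - z (0, 0) :=
  Iff.rfl

/-- Indicator of a row. -/
def row (a : Fin 3) : Fin 3 × Fin 3 → ℝ := fun p => if p.1 = a then 1 else 0

/-- Indicator of a column. -/
def coln (a : Fin 3) : Fin 3 × Fin 3 → ℝ := fun p => if p.2 = a then 1 else 0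

lemma row_mem (a : Fin 3) : row a ∈ K := by
  intro i j
  simp only [row]
  ring

lemma coln_mem (a : Fin 3) : coln a ∈ K := by
  intro i j
  simp only [coln]
  ring

lemma finrank_K : finrank ℝ K = 5 := by
  let e : K ≃ₗ[ℝ] (Fin 5 → ℝ) :=
    { toFun := fun z => ![(z : Fin 3 × Fin 3 → ℝ) (0, 0), (z : Fin 3 × Fin 3 → ℝ) (0, 1),
        (z : Fin 3 × Fin 3 → ℝ) (0, 2), (z : Fin 3 × Fin 3 → ℝ) (1, 0),
        (z : Fin 3 × Fin 3 → ℝ) (2, 0)]
      map_add' := by
        intro a b
        ext i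
        fin_cases i <;> rfl
      map_smul' := by
        intro c a
        ext i
        fin_cases i <;> rfl
      invFun := fun u => ⟨fun p => (![u 0, u 3, u 4] : Fin 3 → ℝ) p.1 +
          (![u 0, u 1, u 2] : Fin 3 → ℝ) p.2 - u 0, by
        intro i j
        simp
        try ring⟩
      left_inv := by
        intro z
        apply Subtype.ext
        ext ⟨i, j⟩
        have h := z.2 i j
        fin_cases i <;> fin_cases j <;> simp at h ⊢ <;> linarith
      right_inv := by
        intro u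
        ext i
        fin_cases i <;> simp }
  rw [e.finrank_eq, Module.finrank_fintype_fun_eq_card, Fintype.card_fin]

lemma one_le (M : Submodule ℝ (Fin 3 × Fin 3 → ℝ)) (v : Fin 3 × Fin 3 → ℝ) (hv : v ∈ M)
    (p : Fin 3 × Fin 3) (hp : v p ≠ 0) : 1 ≤ finrank ℝ M := by
  have hne : M ≠ ⊥ := by
    rintro rfl
    rw [Submodule.mem_bot] at hv
    exact hp (by rw [hv]; rfl)
  exact Submodule.one_le_finrank_iff.mpr hne

lemma row_coln_ind (a b : Fin 3) (x y : ℝ) (h : x • row a + y • coln b = 0) : x = 0 ∧ y = 0 := by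
  have h1 : ∀ i j, x * (if i = a then 1 else 0) + y * (if j = b then 1 else 0) = 0 := by
    intro i j
    have := congrFun h (i, j)
    simpa [row, coln] using this
  have h2 := h1 a (b + 1)
  have h3 := h1 (a + 1) b
  have e1 : b + 1 ≠ b := by fin_cases b <;> decide
  have e2 : a + 1 ≠ a := by fin_cases a <;> decide
  rw [if_pos rfl, if_neg e1] at h2
  rw [if_neg e2, if_pos rfl] at h3
  constructor <;> linarith

lemma two_le (M : Submodule ℝ (Fin 3 × Fin 3 → ℝ)) (a b : Fin 3) (ha : row a ∈ M)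
    (hb : coln b ∈ M) : 2 ≤ finrank ℝ M := by
  have li : LinearIndependent ℝ ![(⟨row a, ha⟩ : M), ⟨coln b, hb⟩] := by
    rw [LinearIndependent.pair_iff]
    intro x y hxy
    apply row_coln_ind a b x y
    have := congrArg (fun z : M => (z : Fin 3 × Fin 3 → ℝ)) hxy
    simpa using this
  have := li.fintype_card_le_finrank
  simpa using this

lemma K_loss (y : Fin 3 × Fin 3 → ℝ) (hy : y ∈ K) (hnz : ∀ p, y p ≠ 0) :
    2 ≤ finrank ℝ (Lz K (pos y)) + finrank ℝ (Lz K (neg y)) := by
  obtain ⟨i₁, h1⟩ := Finite.exists_max (fun i : Fin 3 => y (i, 0))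
  obtain ⟨i₃, h3⟩ := Finite.exists_min (fun i : Fin 3 => y (i, 0))
  obtain ⟨j₁, g1⟩ := Finite.exists_max (fun j : Fin 3 => y (0, j))
  obtain ⟨j₃, g3⟩ := Finite.exists_min (fun j : Fin 3 => y (0, j))
  rw [mem_K] at hy
  have A1 : 0 < y (i₃, j₁) → coln j₁ ∈ Lz K (neg y) := by
    intro h
    refine ⟨coln_mem _, ?_⟩
    rintro ⟨i, j⟩ hij
    rw [mneg] at hij
    have hne : j ≠ j₁ := by
      rintro rfl
      have e1 := hy i₃ j
      have e2 := hy i j
      have e3 := h3 i
      linarith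
    simp [coln, hne]
  have A2 : y (i₃, j₁) < 0 → row i₃ ∈ Lz K (pos y) := by
    intro h
    refine ⟨row_mem _, ?_⟩
    rintro ⟨i, j⟩ hij
    rw [mpos] at hij
    have hne : i ≠ i₃ := by
      rintro rfl
      have e1 := hy i j₁
      have e2 := hy i j
      have e3 := g1 j
      linarith
    simp [row, hne]
  have B1 : 0 < y (i₁, j₃) → row i₁ ∈ Lz K (neg y) := by
    intro h
    refine ⟨row_mem _, ?_⟩
    rintro ⟨i, j⟩ hij
    rw [mneg] at hij
    have hne : i ≠ i₁ := by
      rintro rfl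
      have e1 := hy i j₃
      have e2 := hy i j
      have e3 := g3 j
      linarith
    simp [row, hne]
  have B2 : y (i₁, j₃) < 0 → coln j₃ ∈ Lz K (pos y) := by
    intro h
    refine ⟨coln_mem _, ?_⟩
    rintro ⟨i, j⟩ hij
    rw [mpos] at hij
    have hne : j ≠ j₃ := by
      rintro rfl
      have e1 := hy i₁ j
      have e2 := hy i j
      have e3 := h1 i
      linarith
    simp [coln, hne]
  have r1 : ∀ a : Fin 3, row a (a, 0) ≠ 0 := by intro a; simp [row]
  have c1 : ∀ a : Fin 3, coln a (0, a) ≠ 0 := by intro a; simp [coln]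
  rcases lt_or_gt_of_ne (hnz (i₃, j₁)) with a | a <;>
    rcases lt_or_gt_of_ne (hnz (i₁, j₃)) with b | b
  · have := two_le _ _ _ (A2 a) (B2 b)
    omega
  · have e1 := one_le _ _ (A2 a) _ (r1 i₃)
    have e2 := one_le _ _ (B1 b) _ (r1 i₁)
    omega
  · have e1 := one_le _ _ (A1 a) _ (c1 j₁)
    have e2 := one_le _ _ (B2 b) _ (c1 j₃)
    omega
  · have := two_le _ _ _ (B1 b) (A1 a)
    omega

/-- A spanning tree through `(p, q)`. -/
def B1 (p q : Fin 3) : Finset (Fin 3 × Fin 3) :=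
  {(p, q), (p, q + 1), (p + 1, q + 1), (p + 1, q + 2), (p + 2, q + 2)}

/-- Another spanning tree through `(p, q)`. -/
def B2 (p q : Fin 3) : Finset (Fin 3 × Fin 3) :=
  {(p, q), (p, q + 2), (p + 1, q), (p + 2, q), (p + 2, q + 1)}

lemma B_union : ∀ p q : Fin 3, B1 p q ∪ B2 p q = univ := by decide

lemma B_inter : ∀ p q : Fin 3, B1 p q ∩ B2 p q = {(p, q)} := by decide

lemma fin3 : ∀ p i : Fin 3, i = p ∨ i = p + 1 ∨ i = p + 2 := by decide

lemma det1 (p q : Fin 3) (z : Fin 3 × Fin 3 → ℝ) (hz : z ∈ K) (h : ∀ x ∈ B1 p q, z x = 0) :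
    z = 0 := by
  rw [mem_K] at hz
  have h1 := h (p, q) (by simp [B1])
  have h2 := h (p, q + 1) (by simp [B1])
  have h3 := h (p + 1, q + 1) (by simp [B1])
  have h4 := h (p + 1, q + 2) (by simp [B1])
  have h5 := h (p + 2, q + 2) (by simp [B1])
  rw [hz] at h1 h2 h3 h4 h5
  ext ⟨i, j⟩
  rw [hz i j, Pi.zero_apply]
  rcases fin3 p i with rfl | rfl | rfl <;> rcases fin3 q j with rfl | rfl | rfl <;> linarith

lemma det2 (p q : Fin 3) (z : Fin 3 × Fin 3 → ℝ) (hz : z ∈ K) (h : ∀ x ∈ B2 p q, z x = 0) :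
    z = 0 := by
  rw [mem_K] at hz
  have h1 := h (p, q) (by simp [B2])
  have h2 := h (p, q + 2) (by simp [B2])
  have h3 := h (p + 1, q) (by simp [B2])
  have h4 := h (p + 2, q) (by simp [B2])
  have h5 := h (p + 2, q + 1) (by simp [B2])
  rw [hz] at h1 h2 h3 h4 h5
  ext ⟨i, j⟩
  rw [hz i j, Pi.zero_apply]
  rcases fin3 p i with rfl | rfl | rfl <;> rcases fin3 q j with rfl | rfl | rfl <;> linarith

lemma supp_le (T B : Finset (Fin 3 × Fin 3))
    (hB : ∀ z ∈ K, (∀ x ∈ B, z x = 0) → z = 0) :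
    finrank ℝ (Lz K Tᶜ) ≤ (B ∩ T).card := by
  let φ : Lz K Tᶜ →ₗ[ℝ] ((B ∩ T : Finset (Fin 3 × Fin 3)) → ℝ) :=
    { toFun := fun z i => (z : Fin 3 × Fin 3 → ℝ) i
      map_add' := by intro a b; rfl
      map_smul' := by intro c a; rfl }
  have hinj : Function.Injective φ := by
    rw [injective_iff_map_eq_zero]
    intro z hz
    apply Subtype.ext
    apply hB _ z.2.1
    intro x hx
    by_cases hxT : x ∈ T
    · have := congrFun hz ⟨x, mem_inter.mpr ⟨hx, hxT⟩⟩
      exact this
    · exact z.2.2 x (by rw [mem_compl]; exact hxT)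
  have := LinearMap.finrank_le_finrank_of_injective hinj
  rwa [Module.finrank_fintype_fun_eq_card, Fintype.card_coe] at this

theorem conf : Conf (Fin 3 × Fin 3) K 5 2 1 0 := by
  refine ⟨finrank_K, fun y hy hnz => K_loss y hy hnz, ?_, ?_⟩
  · intro T
    by_cases hT : T = univ
    · refine ⟨1, le_rfl, 0, le_rfl, ?_, ?_⟩
      · rw [hT, compl_univ, Lz_empty, finrank_K]
        decide
      · rw [hT]
        decide
    · refine ⟨0, by omega, 0, le_rfl, ?_, by omega⟩
      obtain ⟨⟨p, q⟩, hpq⟩ : ∃ i, i ∉ T := by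
        by_contra hc
        push Not at hc
        exact hT (by ext i; simp [hc i])
      have h1 := supp_le T (B1 p q) (fun z hz h => det1 p q z hz h)
      have h2 := supp_le T (B2 p q) (fun z hz h => det2 p q z hz h)
      have h3 := card_union_add_card_inter (B1 p q ∩ T) (B2 p q ∩ T)
      rw [← union_inter_distrib_right, B_union, univ_inter,
        ← inter_inter_distrib_right, B_inter, singleton_inter_of_notMem hpq, card_empty] at h3
      omega
  · rintro ⟨i, j⟩
    exact ⟨row i, row_mem i, by simp [row]⟩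

end Pool.Agent.V7H26.Div.KThree
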