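import Mathlib
import Pool.Agent.Helper894.Div.Main
import Pool.Agent.V7H26.Div.Geo
import Pool.Agent.V7H26.Div.Conf
import Pool.Agent.V7H26.Div.KThree
import Pool.Agent.V7H26.Div.Cut

set_option autoImplicit false

/-! Large sets which are not `(2,k)`-divisible. -/

namespace Pool.Agent.V7H26.Div.Lower

open Finset Module Pool.Agent.Helper894.Div.Core Pool.Agent.Helper894.Div.KL
  Pool.Agent.Helper894.Div.Main Pool.Agent.Helper894.Div.Dep Pool.Agent.V7H26.Div.Geo
  Pool.Agent.V7H26.Div.Conf Pool.Agent.V7H26.Div.Cut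

/-- Direct sums of grids, single elements and pairs. -/
theorem exists_conf (m s t : ℕ) : ∃ (ι : Type) (_ : Fintype ι) (_ : DecidableEq ι)
    (L : Submodule ℝ (ι → ℝ)), Fintype.card ι = 9 * m + s + 2 * t ∧
      Conf ι L (5 * m + s + t) (2 * m + s + t) m s := by
  induction m with
  | zero =>
    induction s with
    | zero =>
      induction t with
      | zero => exact ⟨Empty, inferInstance, inferInstance, ⊤, by simp, Conf.empty⟩
      | succ t ih =>
        obtain ⟨ι, _, _, L, hc, h⟩ := ih
        refine ⟨ι ⊕ Bool, inferInstance, inferInstance, dsum L (cst Bool), ?_, ?_⟩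
        · rw [Fintype.card_sum, hc, Fintype.card_bool]; ring
        · have := h.sum Conf.pair
          convert this using 1 <;> ring
    | succ s ih =>
      obtain ⟨ι, _, _, L, hc, h⟩ := ih
      refine ⟨ι ⊕ Unit, inferInstance, inferInstance, dsum L (cst Unit), ?_, ?_⟩
      · rw [Fintype.card_sum, hc, Fintype.card_unit]; ring
      · have := h.sum Conf.single
        convert this using 1 <;> ring
  | succ m ih =>
    obtain ⟨ι, _, _, L, hc, h⟩ := ih
    refine ⟨ι ⊕ (Fin 3 × Fin 3), inferInstance, inferInstance, dsum L KThree.K, ?_, ?_⟩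
    · rw [Fintype.card_sum, hc, Fintype.card_prod, Fintype.card_fin]; ring
    · have := h.sum KThree.conf
      convert this using 1 <;> ring

/-- From a space of weights to points. -/
theorem points_of_weights {ι : Type} [Fintype ι] [DecidableEq ι] (L : Submodule ℝ (ι → ℝ)) (f c m s : ℕ)
    (h : Conf ι L f c m s) (x k d : ℕ) (hx : 1 ≤ x) (hxf : x < f)
    (hcard : Fintype.card ι + x = f + d + 1) (hM : f + x ≤ c + k)
    (h3 : ∀ T : Finset ι, T.card = 2 * k + 2 → finrank ℝ (Lz L Tᶜ) ≤ k + x)
    (h4 : ∀ T : Finset ι, T.card = 2 → finrank ℝ (Lz L Tᶜ) ≤ x) :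
    ∃ S : Finset (EuclideanSpace ℝ (Fin d)), S.card = Fintype.card ι ∧
      (∀ F : AffineSubspace ℝ (EuclideanSpace ℝ (Fin d)), finrank ℝ F.direction = k →
        ∀ T : Finset (EuclideanSpace ℝ (Fin d)), T ⊆ S → (∀ x ∈ T, x ∈ F) → T.card < 2 * k + 2) ∧
      ∀ [DecidableEq (EuclideanSpace ℝ (Fin d))], ¬ Div2 k S := by
  classical
  obtain ⟨L', hL', hr, hw⟩ := cuts L x
  obtain ⟨w, w0, w1⟩ := hw hx
  set M := scale L' w with hMd
  have hrank : ∀ A : Finset ι, finrank ℝ (Lz M A) = finrank ℝ (Lz L A) - x := by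
    intro A
    rw [hMd, scale_rank L' w w0, hr]
  have hfM : finrank ℝ M = f - x := by
    have := hrank ∅
    rwa [Lz_empty, Lz_empty, h.rank] at this
  have hsum : ∀ y ∈ M, ∑ i, y i = 0 := by
    intro y hy
    have h1 := w1 _ hy
    rw [ws_apply] at h1
    rw [← h1]
    apply Finset.sum_congr rfl
    intro i _
    show y i = w i * (y i * (w i)⁻¹)
    rw [mul_comm (y i), ← mul_assoc, mul_inv_cancel₀ (w0 i).ne', one_mul]
  obtain ⟨p, hp⟩ := realize M d hsum (by omega)
  have hinj : Function.Injective p := by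
    intro i j hij
    by_contra hne
    have hv : (Pi.single i 1 - Pi.single j 1 : ι → ℝ) ∈ M := by
      rw [← hp]
      constructor
      · simp
      · simp only [Pi.sub_apply, sub_smul, Finset.sum_sub_distrib, Pi.single_apply, ite_smul,
          one_smul, zero_smul, Finset.sum_ite_eq', mem_univ, if_true, hij, sub_self]
    have hv2 : (Pi.single i 1 - Pi.single j 1 : ι → ℝ) ∈ Lz M ({i, j} : Finset ι)ᶜ := by
      refine ⟨hv, ?_⟩
      intro a ha
      rw [mem_compl, mem_insert, mem_singleton, not_or] at ha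
      simp [ha.1, ha.2]
    have h5 : 1 ≤ finrank ℝ (Lz M ({i, j} : Finset ι)ᶜ) := by
      rw [Submodule.one_le_finrank_iff]
      intro hbot
      rw [hbot, Submodule.mem_bot] at hv2
      have := congrFun hv2 i
      simp [hne] at this
    have h6 := h4 {i, j} (card_pair hne)
    rw [hrank] at h5
    omega
  have hnl : ∀ i, ∃ y ∈ M, y i ≠ 0 := by
    intro i
    by_contra hcon
    push Not at hcon
    have h5 : M ≤ Lz M {i} := by
      intro y hy
      refine ⟨hy, ?_⟩
      intro j hj
      rw [mem_singleton] at hj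
      rw [hj]
      exact hcon y hy
    have h6 := Submodule.finrank_mono h5
    have h7 : Lz L {i} < L := by
      refine lt_of_le_of_ne (fun z hz => hz.1) ?_
      intro heq
      obtain ⟨y, hy, hyi⟩ := h.noloop i
      rw [← heq] at hy
      exact hyi (hy.2 i (mem_singleton_self i))
    have h8 := Submodule.finrank_lt_finrank_of_lt h7
    rw [h.rank] at h8
    rw [hrank, hfM] at h6
    omega
  refine ⟨univ.image p, ?_, ?_, ?_⟩
  · rw [card_image_of_injective _ hinj, card_univ]
  · intro F hF T hT hTF
    by_contra hcon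
    push Not at hcon
    obtain ⟨T', hT', hT'c⟩ := exists_subset_card_eq hcon
    set T0 : Finset ι := univ.filter (fun i => p i ∈ T') with hT0
    have hT0' : T' = T0.image p := by
      ext z
      rw [mem_image]
      constructor
      · intro hz
        obtain ⟨i, _, rfl⟩ := mem_image.mp (hT (hT' hz))
        exact ⟨i, by rw [hT0, mem_filter]; exact ⟨mem_univ _, hz⟩, rfl⟩
      · rintro ⟨i, hi, rfl⟩
        exact (mem_filter.mp hi).2
    have hT0c : T0.card = 2 * k + 2 := by
      rw [← hT'c, hT0', card_image_of_injective _ hinj]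
    refine flat M p hp k F hF inferInstance T0 hT0c ?_ ?_
    · intro i hi
      exact hTF _ (hT' (mem_filter.mp hi).2)
    · rw [hrank]
      have := h3 T0 hT0c
      omega
  · have key : ¬ Div2 k (univ.image p) := by
      refine not_div M p hp hinj hnl k ?_
      intro y hy hnz
      have hy' : (fun i => y i * (w i)⁻¹) ∈ L := hL' hy
      have hnz' : ∀ i, y i * (w i)⁻¹ ≠ 0 := fun i => mul_ne_zero (hnz i) (inv_ne_zero (w0 i).ne')
      have e1 : pos (fun i => y i * (w i)⁻¹) = pos y := by
        ext i
        rw [mpos, mpos]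
        exact mul_pos_iff_of_pos_right (inv_pos.mpr (w0 i))
      have e2 : neg (fun i => y i * (w i)⁻¹) = neg y := by
        ext i
        rw [mneg, mneg]
        have h9 : 0 < (w i)⁻¹ := inv_pos.mpr (w0 i)
        constructor
        · intro h10
          by_contra hc
          push Not at hc
          have := mul_nonneg hc h9.le
          linarith
        · intro h10
          exact mul_neg_of_neg_of_pos h10 h9
      have hl := h.loss _ hy' hnz'
      rw [e1, e2] at hl
      have r1 := hrank (pos y)
      have r2 := hrank (neg y)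
      simp only [rk]
      omega
    intro inst
    rw [Subsingleton.elim inst (fun a b => WithLp.instDecidableEq 2 _ a b)]
    exact key

/-- The main construction. -/
theorem lower (b k d : ℕ) (hk : 27 * b + 14 ≤ 2 * k) (hd : k + 4 * b + 1 ≤ d) :
    ∃ S : Finset (EuclideanSpace ℝ (Fin d)), S.card = 2 * d + 2 + b ∧
      (∀ F : AffineSubspace ℝ (EuclideanSpace ℝ (Fin d)), finrank ℝ F.direction = k →
        ∀ T : Finset (EuclideanSpace ℝ (Fin d)), T ⊆ S → (∀ x ∈ T, x ∈ F) → T.card < 2 * k + 2) ∧
      ∀ [DecidableEq (EuclideanSpace ℝ (Fin d))], ¬ Div2 k S := by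
  obtain ⟨ι, _, _, L, hc, h⟩ := exists_conf (4 * b + 2) (2 * k - 27 * b - 14) (d - k - 4 * b - 1)
  have := points_of_weights L _ _ _ _ h (k - 12 * b - 6) k d (by omega) (by omega) (by omega) (by omega)
    (by
      intro T hT
      obtain ⟨a, ha, a', ha', h1, h2⟩ := h.sparse T
      omega)
    (by
      intro T hT
      obtain ⟨a, ha, a', ha', h1, h2⟩ := h.sparse T
      omega)
  rw [hc] at this
  have e : 9 * (4 * b + 2) + (2 * k - 27 * b - 14) + 2 * (d - k - 4 * b - 1) = 2 * d + 2 + b := by
    omega
  rw [e] at this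
  exact this

end Pool.Agent.V7H26.Div.Lower
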