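import Mathlib
import Pool.Agent.Helper894.Div.Main
import Pool.Agent.Y584.DV.Nice

set_option autoImplicit false

/-! New counting at the maximal chambers. -/

namespace Pool.Agent.V7H26.Div.Abs

open Finset Module Pool.Agent.Helper894.Div.Core Pool.Agent.Helper894.Div.KL
  Pool.Agent.Helper894.Div.Main Pool.Agent.Y584.DV.LemA Pool.Agent.Y584.DV.Nice

variable {ι : Type*} [Fintype ι] [DecidableEq ι]

/-- Nice spaces of small corank: `2k` independent dependencies suffice. -/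
theorem niceA (L : Submodule ℝ (ι → ℝ)) (h : Nice L) (k : ℕ) (hk : 1 ≤ k)
    (hyp : HypA L k) (hn : 2 * k + 2 ≤ Fintype.card ι)
    (hc : Fintype.card ι ≤ finrank ℝ L + k + 3) (hl : 2 * k ≤ finrank ℝ L) :
    ∃ y ∈ L, (∀ i, y i ≠ 0) ∧ (finrank ℝ L : ℤ) + k + 1 ≤ rk L (pos y) + rk L (neg y) := by
  classical
  by_contra hcon
  push Not at hcon
  obtain ⟨y₀, hy₀, hnz₀, hmax⟩ := exists_max L h
  have hM := hcon y₀ hy₀ hnz₀
  obtain ⟨y, hy, hnz, hyM, hA, hB⟩ := KL L h _ hmax ⟨y₀, hy₀, hnz₀, rfl⟩ (by omega)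
  obtain ⟨b1, b2, b3, b4, b5, b6, b7⟩ := book L y hnz
  have e1 := exc_large L k hyp hn (pos y \ col L (pos y)) (by omega)
  have e2 := exc_large L k hyp hn (neg y \ col L (neg y)) (by omega)
  omega

/-- The basic chamber used below. -/
theorem base (L : Submodule ℝ (ι → ℝ)) (h : Nice L) (hD : Dist2 L) (k : ℕ)
    (hlk : k < finrank ℝ L)
    (hcon : ∀ y ∈ L, (∀ i, y i ≠ 0) → rk L (pos y) + rk L (neg y) < (finrank ℝ L : ℤ) + k + 1) :
    ∃ y ∈ L, (∀ i, y i ≠ 0) ∧ rk L (neg y) = finrank ℝ L ∧ rk L (pos y) ≤ k ∧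
      (finrank ℝ L : ℤ) - rk L (pos y) + 1 ≤ (col L (neg y)).card ∧
      2 ≤ (col L (pos y)).card := by
  classical
  obtain ⟨y₀, hy₀, hnz₀, hmax⟩ := exists_max L h
  have hM := hcon y₀ hy₀ hnz₀
  obtain ⟨y, hy, hnz, hyM, hr, hB, hA, hA1⟩ := lemA L h _ hmax ⟨y₀, hy₀, hnz₀, rfl⟩ (by omega)
  have hκ : rk L (pos y) < finrank ℝ L := by omega
  have hA2 : (col L (pos y)).card ≠ 1 := by
    intro h1
    obtain ⟨g, hg, hg2⟩ := hA1 h1
    have hpos : 0 < finrank ℝ (Lz L (pos y)) := by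
      simp only [rk] at hκ; omega
    have hn := Module.finrank_pos_iff.mp hpos
    obtain ⟨z, hz⟩ := exists_ne (0 : Lz L (pos y))
    obtain ⟨x, hx, hzx, ζ, hζ, hζx, hζg, hζ0⟩ := hg2 z z.2 (fun h0 => hz (Subtype.ext h0))
    have h5 := hD ζ hζ x g hζ0
    rw [h5] at hζx
    exact hζx rfl
  exact ⟨y, hy, hnz, hr, by omega, hB, by omega⟩

/-- Nice spaces with at least `3k-2` independent dependencies. -/
theorem niceB (L : Submodule ℝ (ι → ℝ)) (h : Nice L) (hD : Dist2 L) (k : ℕ) (hk : 2 ≤ k)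
    (hyp : HypA L k) (hn : 2 * k + 2 ≤ Fintype.card ι) (hl : 3 * k ≤ finrank ℝ L + 2) :
    ∃ y ∈ L, (∀ i, y i ≠ 0) ∧ (finrank ℝ L : ℤ) + k + 1 ≤ rk L (pos y) + rk L (neg y) := by
  classical
  by_contra hcon
  push Not at hcon
  obtain ⟨y, hy, hnz, hr, hrk, hB, hA⟩ := base L h hD k (by omega) hcon
  obtain ⟨b1, b2, b3, b4, b5, b6, b7⟩ := book L y hnz
  have e3 := exc_large L k hyp hn
    ((pos y \ col L (pos y)) ∪ (neg y \ col L (neg y))) (by omega)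
  omega

/-- The boundary case `3k-3`. -/
theorem niceC (L : Submodule ℝ (ι → ℝ)) (h : Nice L) (hD : Dist2 L) (k : ℕ) (hk : 3 ≤ k)
    (hyp : HypA L k) (hn : 2 * k + 2 ≤ Fintype.card ι) (hl : finrank ℝ L + 3 = 3 * k)
    (hcon : ∀ y ∈ L, (∀ i, y i ≠ 0) → rk L (pos y) + rk L (neg y) < (finrank ℝ L : ℤ) + k + 1) :
    ∃ y ∈ L, (∀ i, y i ≠ 0) ∧ rk L (neg y) = finrank ℝ L ∧ rk L (pos y) = k ∧
      2 * k ≤ (col L (pos y)).card + (col L (neg y)).card := by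
  classical
  obtain ⟨y, hy, hnz, hr, hrk, hB, hA⟩ := base L h hD k (by omega) hcon
  obtain ⟨b1, b2, b3, b4, b5, b6, b7⟩ := book L y hnz
  have e3 := exc_large L k hyp hn
    ((pos y \ col L (pos y)) ∪ (neg y \ col L (neg y)))
  refine ⟨y, hy, hnz, hr, ?_, ?_⟩
  · by_contra hne
    have e4 := e3 (by omega)
    omega
  · have h5 : rk L (pos y) = k := by
      by_contra hne
      have e4 := e3 (by omega)
      omega
    omega

/-- The boundary case `2k-1` of small corank. -/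
theorem niceD (L : Submodule ℝ (ι → ℝ)) (h : Nice L) (hD : Dist2 L) (k : ℕ) (hk : 2 ≤ k)
    (hyp : HypA L k) (hn : 2 * k + 2 ≤ Fintype.card ι) (hl : finrank ℝ L + 1 = 2 * k)
    (hc : Fintype.card ι ≤ finrank ℝ L + k + 2)
    (hcon : ∀ y ∈ L, (∀ i, y i ≠ 0) → rk L (pos y) + rk L (neg y) < (finrank ℝ L : ℤ) + k + 1) :
    ∃ y ∈ L, (∀ i, y i ≠ 0) ∧ rk L (neg y) = finrank ℝ L ∧ rk L (pos y) = k ∧
      (pos y).card ≤ k ∧ k ≤ (col L (neg y)).card := by
  classical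
  obtain ⟨y, hy, hnz, hr, hrk, hB, hA⟩ := base L h hD k (by omega) hcon
  obtain ⟨b1, b2, b3, b4, b5, b6, b7⟩ := book L y hnz
  have e1 := exc_large L k hyp hn (pos y \ col L (pos y)) (by omega)
  have e2 := exc_large L k hyp hn (neg y \ col L (neg y))
  have h6 : (pos y).card ≤ k := by omega
  have h5 : rk L (pos y) = k := by
    by_contra hne
    have e4 := e2 (by omega)
    omega
  exact ⟨y, hy, hnz, hr, h5, h6, by omega⟩

end Pool.Agent.V7H26.Div.Abs
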