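import Mathlib
import Pool.Agent.Helper894.Div.Main
import Pool.Agent.Y584.DV.Nice

set_option autoImplicit false

/-! The walls of a minimal maximal chamber. -/

namespace Pool.Agent.V7H26.Div.Span

open Finset Module Filter Topology Pool.Agent.Helper894.Div.Core Pool.Agent.Helper894.Div.KL
  Pool.Agent.Helper894.Div.Main Pool.Agent.Y584.DV.LemA Pool.Agent.Y584.DV.Nice

variable {ι : Type*} [Fintype ι] [DecidableEq ι]

/-- Crossing exactly one wall in an arbitrary direction. -/
lemma flipG (y z : ι → ℝ) (hnz : ∀ i, y i ≠ 0) (hex : ∃ i, y i * z i < 0)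
    (hdist : ∀ i j, i ≠ j → y i * z i < 0 → y j * z j < 0 → y i * z j ≠ y j * z i) :
    ∃ e, y e * z e < 0 ∧ ∃ t : ℝ, y e * (y e + t * z e) < 0 ∧
      ∀ i, i ≠ e → 0 < y i * (y i + t * z i) := by
  classical
  obtain ⟨i₀, hi₀⟩ := hex
  obtain ⟨e, he, hmin⟩ := Finset.exists_min_image (univ.filter (fun i => y i * z i < 0))
    (fun i => - y i / z i) ⟨i₀, by simp [hi₀]⟩
  have hye : y e * z e < 0 := (mem_filter.mp he).2
  have hzne : ∀ i, y i * z i < 0 → z i ≠ 0 := by
    intro i hi h0
    rw [h0, mul_zero] at hi
    exact lt_irrefl _ hi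
  have hposr : ∀ i, y i * z i < 0 → 0 < - y i / z i := by
    intro i hi
    have h1 := hzne i hi
    have h2 : - y i / z i = - (y i * z i) / (z i * z i) := by
      field_simp
    rw [h2]
    exact div_pos (by linarith) (mul_self_pos.mpr h1)
  set t1 := - y e / z e with ht1
  have ht1pos : 0 < t1 := hposr e hye
  have hq : ∀ i, 0 < y i * y i := fun i => mul_self_pos.mpr (hnz i)
  have hstrict : ∀ i, i ≠ e → 0 < y i * (y i + t1 * z i) := by
    intro i hi
    rcases lt_or_ge (y i * z i) 0 with hyz | hyz
    · have h1 : t1 ≤ - y i / z i := hmin i (by simp [hyz])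
      have hzi := hzne i hyz
      have hze := hzne e hye
      have h2 : t1 ≠ - y i / z i := by
        intro heq
        rw [ht1, div_eq_div_iff hze hzi] at heq
        exact hdist e i (Ne.symm hi) hye hyz (by linarith)
      have h3 : t1 < - y i / z i := lt_of_le_of_ne h1 h2
      have h4 : y i * (y i + t1 * z i) = (- (y i * z i)) * ((- y i / z i) - t1) := by
        field_simp
        ring
      rw [h4]
      exact mul_pos (by linarith) (by linarith)
    · have := hq i
      nlinarith [mul_nonneg ht1pos.le hyz]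
  have ev : ∀ᶠ δ in 𝓝[>] (0 : ℝ), ∀ i, i ≠ e → 0 < y i * (y i + (t1 + δ) * z i) := by
    rw [Filter.eventually_all]
    intro i
    by_cases hi : i = e
    · exact Eventually.of_forall (fun _ h => absurd hi h)
    have hc : Tendsto (fun δ : ℝ => y i * (y i + (t1 + δ) * z i)) (𝓝[>] 0)
        (𝓝 (y i * (y i + (t1 + 0) * z i))) := by
      apply Tendsto.mono_left _ nhdsWithin_le_nhds
      apply Continuous.tendsto
      fun_prop
    have hp : 0 < y i * (y i + (t1 + 0) * z i) := by
      rw [add_zero]
      exact hstrict i hi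
    filter_upwards [hc.eventually (lt_mem_nhds hp)] with δ hδ _
    exact hδ
  have hpos' : ∀ᶠ δ in 𝓝[>] (0 : ℝ), 0 < δ := eventually_mem_nhdsWithin
  obtain ⟨δ, hδ, hδ0⟩ := (ev.and hpos').exists
  refine ⟨e, hye, t1 + δ, ?_, hδ⟩
  have h5 : t1 * z e = - y e := by
    rw [ht1]
    exact div_mul_cancel₀ _ (hzne e hye)
  have h6 : y e * (y e + (t1 + δ) * z e) = δ * (y e * z e) := by
    have : (t1 + δ) * z e = - y e + δ * z e := by rw [add_mul, h5]
    rw [this]; ring
  rw [h6]
  exact mul_neg_of_pos_of_neg hδ0 hye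

/-- Crossing exactly one wall inside `L`. -/
lemma stepG (L : Submodule ℝ (ι → ℝ)) (y : ι → ℝ) (hy : y ∈ L) (hnz : ∀ i, y i ≠ 0)
    (z : ι → ℝ) (hz : z ∈ L) (hex : ∃ i, y i * z i < 0)
    (hgen : ∀ i j, i ≠ j → y i * z i < 0 → y j * z j < 0 → ∃ v ∈ L, z j * v i ≠ z i * v j) :
    ∃ e, y e * z e < 0 ∧ ∃ y'' ∈ L, (∀ i, y'' i ≠ 0) ∧ y e * y'' e < 0 ∧
      ∀ i, i ≠ e → 0 < y i * y'' i := by
  classical
  let g : ι × ι → ((ι → ℝ) →ₗ[ℝ] ℝ) := fun p =>
    z p.2 • (LinearMap.proj p.1 : (ι → ℝ) →ₗ[ℝ] ℝ) - z p.1 • (LinearMap.proj p.2 : (ι → ℝ) →ₗ[ℝ] ℝ)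
  obtain ⟨y', hy', h1, h2⟩ := perturb L y hy
    ((univ.filter (fun p : ι × ι => p.1 ≠ p.2 ∧ y p.1 * z p.1 < 0 ∧ y p.2 * z p.2 < 0)).image g)
    (by
      intro f hf
      obtain ⟨p, hp, rfl⟩ := mem_image.mp hf
      obtain ⟨-, hne, hp1, hp2⟩ := mem_filter.mp hp
      obtain ⟨v, hv, hvne⟩ := hgen p.1 p.2 hne hp1 hp2
      refine ⟨v, hv, ?_⟩
      simp only [g, LinearMap.sub_apply, LinearMap.smul_apply, LinearMap.proj_apply, smul_eq_mul]
      intro heq
      exact hvne (by linarith))
  have hnz' : ∀ i, y' i ≠ 0 := by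
    intro i hi
    have := h1 i (hnz i)
    rw [hi, mul_zero] at this
    exact lt_irrefl _ this
  have hs : ∀ i, (y' i * z i < 0 ↔ y i * z i < 0) := by
    intro i
    have h3 := h1 i (hnz i)
    rcases lt_or_gt_of_ne (hnz i) with h | h
    · have h4 : y' i < 0 := (neg_iff_neg_of_mul_pos h3).mp h
      constructor
      · intro h5
        have : 0 < z i := by
          by_contra hc
          push Not at hc
          have := mul_nonneg_of_nonpos_of_nonpos h4.le hc
          linarith
        exact mul_neg_of_neg_of_pos h this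
      · intro h5
        have : 0 < z i := by
          by_contra hc
          push Not at hc
          have := mul_nonneg_of_nonpos_of_nonpos h.le hc
          linarith
        exact mul_neg_of_neg_of_pos h4 this
    · have h4 : 0 < y' i := (pos_iff_pos_of_mul_pos h3).mp h
      constructor
      · intro h5
        have : z i < 0 := by
          by_contra hc
          push Not at hc
          have := mul_nonneg h4.le hc
          linarith
        exact mul_neg_of_pos_of_neg h this
      · intro h5
        have : z i < 0 := by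
          by_contra hc
          push Not at hc
          have := mul_nonneg h.le hc
          linarith
        exact mul_neg_of_pos_of_neg h4 this
  obtain ⟨e, hye, t, ht1, ht2⟩ := flipG y' z hnz'
    (by obtain ⟨i, hi⟩ := hex; exact ⟨i, (hs i).mpr hi⟩)
    (by
      intro i j hij hi hj
      have := h2 (g (i, j)) (mem_image_of_mem _ (by simp [hij, (hs i).mp hi, (hs j).mp hj]))
      simp only [g, LinearMap.sub_apply, LinearMap.smul_apply, LinearMap.proj_apply,
        smul_eq_mul] at this
      intro heq
      apply this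
      linarith)
  have key : ∀ i, ∀ x : ℝ, 0 < y' i * x → 0 < y i * x := by
    intro i x hx
    have a := h1 i (hnz i)
    have c : 0 < (y i * y' i) * (y' i * x) := mul_pos a hx
    have d : (y i * y' i) * (y' i * x) = (y' i)^2 * (y i * x) := by ring
    rw [d] at c
    have hy2 : 0 < (y' i)^2 := by
      have := hnz' i
      positivity
    exact (mul_pos_iff_of_pos_left hy2).mp c
  refine ⟨e, (hs e).mp hye, y' + t • z, L.add_mem hy' (L.smul_mem _ hz), ?_, ?_, ?_⟩
  · intro i
    simp only [Pi.add_apply, Pi.smul_apply, smul_eq_mul]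
    by_cases hi : i = e
    · subst hi
      intro h0
      rw [h0, mul_zero] at ht1
      exact lt_irrefl _ ht1
    · intro h0
      have := ht2 i hi
      rw [h0, mul_zero] at this
      exact lt_irrefl _ this
  · simp only [Pi.add_apply, Pi.smul_apply, smul_eq_mul]
    have := key e (-(y' e + t * z e)) (by linarith)
    linarith
  · intro i hi
    simp only [Pi.add_apply, Pi.smul_apply, smul_eq_mul]
    exact key i _ (ht2 i hi)

/-- Elements of the negative part in the span of the positive part. -/
noncomputable def inY (L : Submodule ℝ (ι → ℝ)) (A Q : Finset ι) : Finset ι :=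
  open Classical in Q.filter (fun e => rk L (insert e A) = rk L A)

/-- At a minimal maximal chamber, the coloops of both parts together with the elements of the
negative part in the span of the positive part determine the vectors of `L`. -/
theorem span (L : Submodule ℝ (ι → ℝ)) (h : Nice L) (M : ℤ)
    (hmax : ∀ y ∈ L, (∀ i, y i ≠ 0) → rk L (pos y) + rk L (neg y) ≤ M)
    (y : ι → ℝ) (hy : y ∈ L) (hnz : ∀ i, y i ≠ 0) (hM : rk L (pos y) + rk L (neg y) = M)
    (hr : rk L (neg y) = finrank ℝ L)
    (hmin : ∀ y' ∈ L, (∀ i, y' i ≠ 0) → rk L (pos y') + rk L (neg y') = M →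
        rk L (neg y') = finrank ℝ L → (pos y).card ≤ (pos y').card) :
    ∀ z ∈ L, (∀ i ∈ col L (pos y), z i = 0) → (∀ i ∈ col L (neg y), z i = 0) →
      (∀ i ∈ inY L (pos y) (neg y), z i = 0) → z = 0 := by
  classical
  intro z₀ hz₀ hC₀ hD₀ hY₀
  by_contra hz0
  -- choose the direction
  obtain ⟨z, hz, hC, hD, hY, hex⟩ : ∃ z ∈ L, (∀ i ∈ col L (pos y), z i = 0) ∧
      (∀ i ∈ col L (neg y), z i = 0) ∧ (∀ i ∈ inY L (pos y) (neg y), z i = 0) ∧
      ∃ i, y i * z i < 0 := by
    obtain ⟨i, hi⟩ : ∃ i, z₀ i ≠ 0 := by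
      by_contra hc
      push Not at hc
      exact hz0 (funext hc)
    rcases lt_or_gt_of_ne (mul_ne_zero (hnz i) hi) with h1 | h1
    · exact ⟨z₀, hz₀, hC₀, hD₀, hY₀, i, h1⟩
    · refine ⟨-z₀, L.neg_mem hz₀, ?_, ?_, ?_, i, ?_⟩
      · intro j hj; simp [hC₀ j hj]
      · intro j hj; simp [hD₀ j hj]
      · intro j hj; simp [hY₀ j hj]
      · simp only [Pi.neg_apply, mul_neg]; linarith
  have hside : ∀ i, i ∈ pos y ∨ i ∈ neg y := by
    intro i
    rcases lt_or_gt_of_ne (hnz i) with h1 | h1
    · right; exact (mneg y i).mpr h1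
    · left; exact (mpos y i).mpr h1
  -- no proportional walls
  have hmix : ∀ i j, i ∈ pos y → j ∈ neg y → z i ≠ 0 → z j ≠ 0 →
      ∃ v ∈ L, z j * v i ≠ z i * v j := by
    intro i j hi hj hzi hzj
    by_contra hcon
    push Not at hcon
    apply hzj
    apply hY j
    simp only [inY, mem_filter]
    refine ⟨hj, ?_⟩
    refine le_antisymm ?_ (rk_mono L (subset_insert _ _))
    have hle : Lz L (pos y) ≤ Lz L (insert j (pos y)) := by
      intro v hv
      refine ⟨hv.1, ?_⟩
      intro x hx
      rcases mem_insert.mp hx with rfl | hx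
      · have h1 := hcon v hv.1
        rw [hv.2 i hi, mul_zero] at h1
        rcases mul_eq_zero.mp h1.symm with h2 | h2
        · exact absurd h2 hzi
        · exact h2
      · exact hv.2 x hx
    have := Submodule.finrank_mono hle
    simp only [rk]
    omega
  have hgen : ∀ i j, i ≠ j → y i * z i < 0 → y j * z j < 0 → ∃ v ∈ L, z j * v i ≠ z i * v j := by
    intro i j hij hi hj
    have hzi : z i ≠ 0 := by rintro h0; rw [h0, mul_zero] at hi; exact lt_irrefl _ hi
    have hzj : z j ≠ 0 := by rintro h0; rw [h0, mul_zero] at hj; exact lt_irrefl _ hj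
    rcases hside i with h1 | h1 <;> rcases hside j with h2 | h2
    · have a1 := (mpos y i).mp h1
      have a2 := (mpos y j).mp h2
      have b1 : z i < 0 := by
        by_contra hc; push Not at hc
        have := mul_nonneg a1.le hc; linarith
      have b2 : z j < 0 := by
        by_contra hc; push Not at hc
        have := mul_nonneg a2.le hc; linarith
      obtain ⟨v, hv, hvne⟩ := h.dist i j hij (z j / z i) (div_pos_of_neg_of_neg b2 b1)
      refine ⟨v, hv, ?_⟩
      intro heq
      apply hvne
      rw [div_mul_eq_mul_div, eq_div_iff hzi]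
      linarith
    · exact hmix i j h1 h2 hzi hzj
    · obtain ⟨v, hv, hvne⟩ := hmix j i h2 h1 hzj hzi
      exact ⟨v, hv, fun heq => hvne heq.symm⟩
    · have a1 := (mneg y i).mp h1
      have a2 := (mneg y j).mp h2
      have b1 : 0 < z i := by
        by_contra hc; push Not at hc
        have := mul_nonneg_of_nonpos_of_nonpos a1.le hc; linarith
      have b2 : 0 < z j := by
        by_contra hc; push Not at hc
        have := mul_nonneg_of_nonpos_of_nonpos a2.le hc; linarith
      obtain ⟨v, hv, hvne⟩ := h.dist i j hij (z j / z i) (div_pos b2 b1)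
      refine ⟨v, hv, ?_⟩
      intro heq
      apply hvne
      rw [div_mul_eq_mul_div, eq_div_iff hzi]
      linarith
  obtain ⟨e, he, y'', hy'', hnz'', hse, hsi⟩ := stepG L y hy hnz z hz hex hgen
  have hze : z e ≠ 0 := by rintro h0; rw [h0, mul_zero] at he; exact lt_irrefl _ he
  rcases hside e with h1 | h1
  · -- a wall of the positive part
    have a1 := (mpos y e).mp h1
    have a2 : y'' e < 0 := by
      by_contra hc; push Not at hc
      have := mul_nonneg a1.le hc; linarith
    have hp : pos y'' = (pos y).erase e := by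
      ext i
      rw [mem_erase, mpos, mpos]
      by_cases hi : i = e
      · subst hi
        constructor
        · intro h; linarith
        · rintro ⟨h, -⟩; exact absurd rfl h
      · rw [← pos_iff_pos_of_mul_pos (hsi i hi)]
        exact ⟨fun h => ⟨hi, h⟩, fun h => h.2⟩
    have hn : neg y'' = insert e (neg y) := by
      ext i
      rw [mem_insert, mneg, mneg]
      by_cases hi : i = e
      · subst hi
        exact ⟨fun _ => Or.inl rfl, fun _ => a2⟩
      · rw [← neg_iff_neg_of_mul_pos (hsi i hi)]
        exact ⟨fun h => Or.inr h, fun h => h.resolve_left hi⟩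
    have hec : e ∉ col L (pos y) := fun hc => hze (hC e hc)
    have h2 : rk L ((pos y).erase e) = rk L (pos y) := by
      refine le_antisymm (rk_mono L (erase_subset _ _)) ?_
      by_contra hlt
      push Not at hlt
      exact hec ((mem_col L _ e).mpr ⟨h1, hlt⟩)
    have h3 : rk L (neg y'') = finrank ℝ L := by
      refine le_antisymm (rk_le L _) ?_
      rw [hn, ← hr]
      exact rk_mono L (subset_insert _ _)
    have h4 := hmin y'' hy'' hnz'' (by rw [h3, hp, h2, ← hr]; exact hM) h3
    rw [hp, card_erase_of_mem h1] at h4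
    have h5 : 0 < (pos y).card := card_pos.mpr ⟨e, h1⟩
    omega
  · -- a wall of the negative part
    have a1 := (mneg y e).mp h1
    have a2 : 0 < y'' e := by
      by_contra hc; push Not at hc
      have := mul_nonneg_of_nonpos_of_nonpos a1.le hc; linarith
    have hp : pos y'' = insert e (pos y) := by
      ext i
      rw [mem_insert, mpos, mpos]
      by_cases hi : i = e
      · subst hi
        exact ⟨fun _ => Or.inl rfl, fun _ => a2⟩
      · rw [← pos_iff_pos_of_mul_pos (hsi i hi)]
        exact ⟨fun h => Or.inr h, fun h => h.resolve_left hi⟩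
    have hn : neg y'' = (neg y).erase e := by
      ext i
      rw [mem_erase, mneg, mneg]
      by_cases hi : i = e
      · subst hi
        constructor
        · intro h; linarith
        · rintro ⟨h, -⟩; exact absurd rfl h
      · rw [← neg_iff_neg_of_mul_pos (hsi i hi)]
        exact ⟨fun h => ⟨hi, h⟩, fun h => h.2⟩
    have hec : e ∉ col L (neg y) := fun hc => hze (hD e hc)
    have h2 : rk L ((neg y).erase e) = rk L (neg y) := by
      refine le_antisymm (rk_mono L (erase_subset _ _)) ?_
      by_contra hlt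
      push Not at hlt
      exact hec ((mem_col L _ e).mpr ⟨h1, hlt⟩)
    have hey : e ∉ inY L (pos y) (neg y) := fun hc => hze (hY e hc)
    have h3 : rk L (insert e (pos y)) = rk L (pos y) + 1 := by
      have h4 := rk_insert_le L (pos y) e
      have h5 := rk_mono L (subset_insert e (pos y))
      have h6 : rk L (insert e (pos y)) ≠ rk L (pos y) := by
        intro heq
        apply hey
        simp only [inY, mem_filter]
        exact ⟨h1, heq⟩
      omega
    have h4 := hmax y'' hy'' hnz''
    rw [hp, hn, h2, h3] at h4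
    omega

end Pool.Agent.V7H26.Div.Span
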