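import Mathlib
import Pool.Agent.V7H26.Div.Abs
import Pool.Agent.V7H26.Div.Span

set_option autoImplicit false

/-! The counting at a minimal maximal chamber, using its walls. -/

namespace Pool.Agent.V7H26.Div.Half

open Finset Module Pool.Agent.Helper894.Div.Core Pool.Agent.Helper894.Div.KL
  Pool.Agent.Helper894.Div.Main Pool.Agent.Y584.DV.LemA Pool.Agent.Y584.DV.Nice
  Pool.Agent.V7H26.Div.Abs Pool.Agent.V7H26.Div.Span

variable {ι : Type*} [Fintype ι] [DecidableEq ι]

/-- Adding elements of the span does not change the rank. -/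
lemma rk_union_eq (L : Submodule ℝ (ι → ℝ)) (A B : Finset ι)
    (hB : ∀ e ∈ B, rk L (insert e A) = rk L A) : rk L (A ∪ B) = rk L A := by
  induction B using Finset.induction_on with
  | empty => simp
  | insert e B he ih =>
    have h1 := ih (fun x hx => hB x (mem_insert_of_mem hx))
    have h2 := hB e (mem_insert_self _ _)
    have h3 := rk_sub L (A ∪ B) (insert e A)
    have e1 : A ∪ B ∪ insert e A = A ∪ insert e B := by
      ext x; simp only [mem_union, mem_insert]; tauto
    have h4 : rk L A ≤ rk L ((A ∪ B) ∩ insert e A) :=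
      rk_mono L (by
        intro x hx
        rw [mem_inter, mem_union, mem_insert]
        exact ⟨Or.inl hx, Or.inr hx⟩)
    have h5 : rk L A ≤ rk L (A ∪ insert e B) := rk_mono L subset_union_left
    rw [e1] at h3
    omega

/-- The counting. -/
theorem niceE (L : Submodule ℝ (ι → ℝ)) (h : Nice L) (k : ℕ) (hk : 1 ≤ k)
    (hyp : HypA L k) (hn : 2 * k + 2 ≤ Fintype.card ι) (hl : 2 * k ≤ finrank ℝ L)
    (hc : Fintype.card ι + k ≤ 2 * finrank ℝ L + 3) :
    ∃ y ∈ L, (∀ i, y i ≠ 0) ∧ (finrank ℝ L : ℤ) + k + 1 ≤ rk L (pos y) + rk L (neg y) := by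
  classical
  by_cases hsm : Fintype.card ι ≤ finrank ℝ L + k + 3
  · exact niceA L h k hk hyp hn hsm hl
  by_contra hcon
  push Not at hcon
  obtain ⟨y₀, hy₀, hnz₀, hmax⟩ := exists_max L h
  have hM := hcon y₀ hy₀ hnz₀
  obtain ⟨y, hy, hnz, hyM, hr, hmin⟩ := exists_min L h _ hmax ⟨y₀, hy₀, hnz₀, rfl⟩
  have hκ : rk L (pos y) ≤ k := by omega
  have hnz' : ∀ i, (-y) i ≠ 0 := fun i => by simpa using hnz i
  have hM' : rk L (pos (-y)) + rk L (neg (-y)) = rk L (pos y₀) + rk L (neg y₀) := by
    rw [pos_neg_eq, neg_neg_eq, add_comm]; exact hyM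
  have hD : (finrank ℝ L : ℤ) - rk L (pos y) + 1 ≤ (col L (neg y)).card := by
    have h1 := count L h _ hmax (-y) (L.neg_mem hy) hnz' hM' (by rw [neg_neg_eq]; omega)
    rw [neg_neg_eq, pos_neg_eq] at h1
    exact h1
  obtain ⟨b1, b2, b3, b4, b5, b6, b7⟩ := book L y hnz
  have hsp := span L h _ hmax y hy hnz hyM hr hmin
  set Y := inY L (pos y) (neg y) with hYdef
  have hYmem : ∀ e ∈ Y, e ∈ neg y ∧ rk L (insert e (pos y)) = rk L (pos y) := by
    intro e he
    simpa [hYdef, inY] using he
  -- the span inequality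
  have hS : (finrank ℝ L : ℤ) ≤ (col L (pos y)).card + (col L (neg y)).card +
      (Y \ col L (neg y)).card := by
    have h1 : Lz L (col L (pos y) ∪ (col L (neg y) ∪ (Y \ col L (neg y)))) = ⊥ := by
      rw [eq_bot_iff]
      intro z hz
      rw [Submodule.mem_bot]
      refine hsp z hz.1 ?_ ?_ ?_
      · intro i hi
        exact hz.2 i (mem_union_left _ hi)
      · intro i hi
        exact hz.2 i (mem_union_right _ (mem_union_left _ hi))
      · intro i hi
        by_cases hic : i ∈ col L (neg y)
        · exact hz.2 i (mem_union_right _ (mem_union_left _ hic))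
        · exact hz.2 i (mem_union_right _ (mem_union_right _ (Finset.mem_sdiff.mpr ⟨hi, hic⟩)))
    have h2 : rk L (col L (pos y) ∪ (col L (neg y) ∪ (Y \ col L (neg y)))) = finrank ℝ L := by
      simp only [rk]
      rw [h1, finrank_bot]
      push_cast
      ring
    have h3 := rk_le_card L (col L (pos y) ∪ (col L (neg y) ∪ (Y \ col L (neg y))))
    have h4 := card_union_le (col L (pos y)) (col L (neg y) ∪ (Y \ col L (neg y)))
    have h5 := card_union_le (col L (neg y)) (Y \ col L (neg y))
    rw [h2] at h3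
    omega
  -- the flat of the positive part
  have hE1 : (k : ℤ) + 1 ≤ finrank ℝ L - rk L (pos y) →
      ((finrank ℝ L : ℤ) - rk L (pos y)) + k + 2 + ((pos y).card + (Y \ col L (neg y)).card)
        ≤ Fintype.card ι := by
    intro hge
    have h1 : rk L (pos y ∪ (Y \ col L (neg y))) = rk L (pos y) :=
      rk_union_eq L _ _ (fun e he => (hYmem e (Finset.mem_sdiff.mp he).1).2)
    have h2 := exc_large L k hyp hn (pos y ∪ (Y \ col L (neg y))) (by rw [h1]; exact hge)
    have hdis : Disjoint (pos y) (Y \ col L (neg y)) := by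
      rw [disjoint_left]
      intro i hi hj
      have h3 := (mpos y i).mp hi
      have h4 := (mneg y i).mp (hYmem i (Finset.mem_sdiff.mp hj).1).1
      linarith
    rw [h1, card_union_of_disjoint hdis] at h2
    push_cast at h2
    linarith
  have e2 := exc_large L k hyp hn (neg y \ col L (neg y)) (by omega)
  have e3 := exc_large L k hyp hn
    ((pos y \ col L (pos y)) ∪ (neg y \ col L (neg y)))
  have hge : (k : ℤ) + 1 ≤ finrank ℝ L - rk L (pos y) := by omega
  have e1 := hE1 hge
  have h6 : ((col L (pos y)).card : ℤ) + (col L (neg y)).card ≤ rk L (pos y) + k := by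
    by_contra hlt
    have e4 := e3 (by omega)
    omega
  omega

end Pool.Agent.V7H26.Div.Half
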