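import Mathlib
import Pool.Agent.Helper894.Div.Main
import Pool.Agent.V7H26.Div.Abs

set_option autoImplicit false

/-! Putting a pair of proportional coordinates back. -/

namespace Pool.Agent.V7H26.Div.Pair

open Finset Module Filter Topology Pool.Agent.Helper894.Div.Core Pool.Agent.Helper894.Div.KL
  Pool.Agent.Helper894.Div.Main Pool.Agent.Helper894.Div.Dep

variable {E : Type} [NormedAddCommGroup E] [NormedSpace ℝ E] [DecidableEq E]

/-- Inclusion of the remaining points. -/
def up (S : Finset E) (P : Finset S) (t : (S \ pts S P : Finset E)) : S :=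
  ⟨t, (Finset.mem_sdiff.mp t.2).1⟩

lemma up_inj (S : Finset E) (P : Finset S) : Function.Injective (up S P) := by
  intro a b h
  apply Subtype.ext
  exact congrArg (fun z : S => (z : E)) h

lemma up_notMem (S : Finset E) (P : Finset S) (t : (S \ pts S P : Finset E)) : up S P t ∉ P := by
  intro h
  exact (Finset.mem_sdiff.mp t.2).2 ((mem_pts S P _).mpr ⟨_, h, rfl⟩)

lemma exists_up (S : Finset E) (P : Finset S) (s : S) (hs : s ∉ P) : ∃ t, up S P t = s := by
  refine ⟨⟨s, ?_⟩, rfl⟩
  rw [Finset.mem_sdiff]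
  refine ⟨s.2, ?_⟩
  intro h
  obtain ⟨i, hi, his⟩ := (mem_pts S P _).mp h
  exact hs ((Subtype.ext his : i = s) ▸ hi)

lemma sum_up (S : Finset E) (P : Finset S) {M : Type} [AddCommMonoid M] (g : S → M)
    (hg : ∀ i ∈ P, g i = 0) : ∑ t, g (up S P t) = ∑ i, g i := by
  classical
  have h1 : ∑ t, g (up S P t) = ∑ i ∈ univ.image (up S P), g i := by
    rw [Finset.sum_image]
    intro a _ b _ h
    exact up_inj S P h
  rw [h1]
  apply sum_subset (subset_univ _)
  intro i _ hi
  apply hg
  by_contra hc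
  obtain ⟨t, ht⟩ := exists_up S P i hc
  exact hi (mem_image.mpr ⟨t, mem_univ _, ht⟩)

/-- Extension by zero. -/
noncomputable def ext0 (S : Finset E) (P : Finset S) (v : (S \ pts S P : Finset E) → ℝ) :
    S → ℝ :=
  open Classical in fun s => if h : ∃ t, up S P t = s then v h.choose else 0

lemma ext0_up (S : Finset E) (P : Finset S) (v : (S \ pts S P : Finset E) → ℝ)
    (t : (S \ pts S P : Finset E)) : ext0 S P v (up S P t) = v t := by
  classical
  have h : ∃ t', up S P t' = up S P t := ⟨t, rfl⟩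
  unfold ext0
  rw [dif_pos h]
  congr 1
  exact up_inj S P h.choose_spec

lemma ext0_mem (S : Finset E) (P : Finset S) (v : (S \ pts S P : Finset E) → ℝ)
    (s : S) (hs : s ∈ P) : ext0 S P v s = 0 := by
  classical
  unfold ext0
  rw [dif_neg]
  rintro ⟨t, rfl⟩
  exact up_notMem S P t hs

lemma ext0_dep (S : Finset E) (P : Finset S) (v : (S \ pts S P : Finset E) → ℝ)
    (hv : v ∈ dep (S \ pts S P)) : ext0 S P v ∈ dep S := by
  obtain ⟨h1, h2⟩ := (mem_dep _ v).mp hv
  rw [mem_dep]
  constructor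
  · rw [← sum_up S P (fun s => ext0 S P v s) (fun i hi => ext0_mem S P v i hi), ← h1]
    apply Finset.sum_congr rfl
    intro t _
    exact ext0_up S P v t
  · rw [← sum_up S P (fun s => ext0 S P v s • (s : E))
      (fun i hi => by rw [ext0_mem S P v i hi, zero_smul]), ← h2]
    apply Finset.sum_congr rfl
    intro t _
    rw [ext0_up]
    rfl

lemma res_dep (S : Finset E) (P : Finset S) (y : S → ℝ) (hy : y ∈ dep S)
    (h0 : ∀ i ∈ P, y i = 0) : (fun t => y (up S P t)) ∈ dep (S \ pts S P) := by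
  obtain ⟨h1, h2⟩ := (mem_dep _ y).mp hy
  rw [mem_dep]
  constructor
  · rw [sum_up S P (fun s => y s) h0, h1]
  · have := sum_up S P (fun s => y s • (s : E)) (fun i hi => by rw [h0 i hi, zero_smul])
    rw [h2] at this
    exact this

/-- Dependencies vanishing on `P` and on a set of remaining points come from below. -/
lemma finrank_down (S : Finset E) (P : Finset S) (F : Finset (S \ pts S P : Finset E))
    (W : Submodule ℝ (S → ℝ)) (hW : W ≤ dep S) (hP : ∀ y ∈ W, ∀ i ∈ P, y i = 0)
    (hF : ∀ y ∈ W, ∀ t ∈ F, y (up S P t) = 0) :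
    finrank ℝ W ≤ finrank ℝ (Lz (dep (S \ pts S P)) F) := by
  let φ : W →ₗ[ℝ] Lz (dep (S \ pts S P)) F :=
    { toFun := fun y => ⟨fun t => (y : S → ℝ) (up S P t),
        res_dep S P y (hW y.2) (hP y y.2), fun t ht => hF y y.2 t ht⟩
      map_add' := by intro a b; rfl
      map_smul' := by intro c a; rfl }
  refine LinearMap.finrank_le_finrank_of_injective (f := φ) ?_
  intro a b hab
  apply Subtype.ext
  funext s
  by_cases hs : s ∈ P
  · rw [hP a a.2 s hs, hP b b.2 s hs]
  · obtain ⟨t, rfl⟩ := exists_up S P s hs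
    exact congrFun (congrArg (fun z : Lz (dep (S \ pts S P)) F =>
      (z : (S \ pts S P : Finset E) → ℝ)) hab) t

/-- Dependencies of the remaining points extend, and one more is independent from them. -/
lemma finrank_up (S : Finset E) (P : Finset S) (F : Finset (S \ pts S P : Finset E)) (i : S)
    (hi : i ∈ P) (v : S → ℝ) (hv : v ∈ dep S) (hvF : ∀ t ∈ F, v (up S P t) = 0)
    (hvi : v i ≠ 0) :
    finrank ℝ (Lz (dep (S \ pts S P)) F) + 1 ≤ finrank ℝ (Lz (dep S) (F.image (up S P))) := by
  classical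
  let N : Submodule ℝ (S → ℝ) := Lz (dep S) (F.image (up S P) ∪ P)
  have h1 : finrank ℝ (Lz (dep (S \ pts S P)) F) ≤ finrank ℝ N := by
    let φ : Lz (dep (S \ pts S P)) F →ₗ[ℝ] N :=
      { toFun := fun y => ⟨ext0 S P y, ext0_dep S P y y.2.1, by
          intro s hs
          rcases mem_union.mp hs with h | h
          · obtain ⟨t, ht, rfl⟩ := mem_image.mp h
            rw [ext0_up]
            exact y.2.2 t ht
          · exact ext0_mem S P y s h⟩
        map_add' := by
          intro a b
          apply Subtype.ext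
          funext s
          by_cases hs : s ∈ P
          · simp [ext0_mem S P _ s hs]
          · obtain ⟨t, rfl⟩ := exists_up S P s hs
            simp [ext0_up]
        map_smul' := by
          intro c a
          apply Subtype.ext
          funext s
          by_cases hs : s ∈ P
          · simp [ext0_mem S P _ s hs]
          · obtain ⟨t, rfl⟩ := exists_up S P s hs
            simp [ext0_up] }
    refine LinearMap.finrank_le_finrank_of_injective (f := φ) ?_
    intro a b hab
    apply Subtype.ext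
    funext t
    have h := congrFun (congrArg (fun z : N => (z : S → ℝ)) hab) (up S P t)
    have h' : ext0 S P a (up S P t) = ext0 S P b (up S P t) := h
    rwa [ext0_up, ext0_up] at h'
  have h2 : N < Lz (dep S) (F.image (up S P)) := by
    refine lt_of_le_of_ne (Lz_anti _ subset_union_left) ?_
    intro heq
    have hmem : v ∈ Lz (dep S) (F.image (up S P)) := by
      refine ⟨hv, ?_⟩
      intro s hs
      obtain ⟨t, ht, rfl⟩ := mem_image.mp hs
      exact hvF t ht
    rw [← heq] at hmem
    exact hvi (hmem.2 i (mem_union_right _ hi))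
  have h3 := Submodule.finrank_lt_finrank_of_lt h2
  omega

/-- The pair trick. -/
lemma pt [FiniteDimensional ℝ E] (S : Finset E) (k : ℕ) (hk : 1 ≤ k) (i j : S) (c : ℝ)
    (hc : 0 < c) (hpar : ∀ y ∈ dep S, y j = c * y i) (hi : ∃ y ∈ dep S, y i ≠ 0)
    (y : (S \ pts S {i, j} : Finset E) → ℝ) (hy : y ∈ dep (S \ pts S {i, j}))
    (hnz : ∀ t, y t ≠ 0)
    (hM : (finrank ℝ (dep (S \ pts S {i, j})) : ℤ) + k ≤
      rk (dep (S \ pts S {i, j})) (pos y) + rk (dep (S \ pts S {i, j})) (neg y))
    (hnd : ¬ Div2 k S) :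
    ∃ v ∈ dep S, v i ≠ 0 ∧ ∀ t ∈ neg y, v (up S {i, j} t) = 0 := by
  classical
  by_contra hcon
  push Not at hcon
  have hcon' : ∀ v ∈ dep S, (∀ t ∈ neg y, v (up S {i, j} t) = 0) → v i = 0 := by
    intro v hv hv2
    by_contra hne
    obtain ⟨t, ht, ht2⟩ := hcon v hv hne
    exact ht2 (hv2 t ht)
  apply hnd
  obtain ⟨ζ, hζ, hζi⟩ : ∃ ζ ∈ dep S, 0 < ζ i := by
    obtain ⟨z, hz, hzi⟩ := hi
    rcases lt_or_gt_of_ne hzi with h | h
    · exact ⟨-z, (dep S).neg_mem hz, by simpa using h⟩
    · exact ⟨z, hz, h⟩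
  have hζj : 0 < ζ j := by rw [hpar ζ hζ]; exact mul_pos hc hζi
  have hev : ∀ᶠ ε in 𝓝[>] (0 : ℝ), ∀ t, 0 < y t * (y t + ε * ζ (up S {i, j} t)) := by
    rw [Filter.eventually_all]
    intro t
    have hc' : Tendsto (fun ε : ℝ => y t * (y t + ε * ζ (up S {i, j} t))) (𝓝[>] 0)
        (𝓝 (y t * (y t + 0 * ζ (up S {i, j} t)))) := by
      apply Tendsto.mono_left _ nhdsWithin_le_nhds
      apply Continuous.tendsto
      fun_prop
    have hp : 0 < y t * (y t + 0 * ζ (up S {i, j} t)) := by
      rw [zero_mul, add_zero]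
      exact mul_self_pos.mpr (hnz t)
    exact hc'.eventually (lt_mem_nhds hp)
  have hpos' : ∀ᶠ ε in 𝓝[>] (0 : ℝ), 0 < ε := eventually_mem_nhdsWithin
  obtain ⟨ε, hε, hε0⟩ := (hev.and hpos').exists
  set y' : S → ℝ := ext0 S {i, j} y + ε • ζ with hy'
  have hyS : y' ∈ dep S := (dep S).add_mem (ext0_dep S _ y hy) ((dep S).smul_mem _ hζ)
  have hup : ∀ t, y' (up S {i, j} t) = y t + ε * ζ (up S {i, j} t) := by
    intro t
    simp [hy', ext0_up]
  have hyi : 0 < y' i := by
    have : y' i = ε * ζ i := by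
      simp [hy', ext0_mem S {i, j} y i (by simp)]
    rw [this]; positivity
  have hyj : 0 < y' j := by
    have : y' j = ε * ζ j := by
      simp [hy', ext0_mem S {i, j} y j (by simp)]
    rw [this]; positivity
  have hnz' : ∀ s, y' s ≠ 0 := by
    intro s
    by_cases hs : s ∈ ({i, j} : Finset S)
    · rw [mem_insert, mem_singleton] at hs
      rcases hs with rfl | rfl
      · exact hyi.ne'
      · exact hyj.ne'
    · obtain ⟨t, rfl⟩ := exists_up S _ s hs
      intro h0
      have := hε t
      rw [← hup, h0, mul_zero] at this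
      exact lt_irrefl _ this
  have hpi : ∀ t ∈ pos y, up S {i, j} t ∈ pos y' := by
    intro t ht
    rw [Pool.Agent.Helper894.Div.KL.mem_pos] at ht ⊢
    have := hε t
    rw [← hup] at this
    exact (pos_iff_pos_of_mul_pos this).mp ht
  have hni : ∀ t ∈ neg y, up S {i, j} t ∈ neg y' := by
    intro t ht
    rw [Pool.Agent.Helper894.Div.KL.mem_neg] at ht ⊢
    have := hε t
    rw [← hup] at this
    exact (neg_iff_neg_of_mul_pos this).mp ht
  have f1 : finrank ℝ (Lz (dep S) (pos y')) ≤
      finrank ℝ (Lz (dep (S \ pts S {i, j})) (pos y)) := by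
    apply finrank_down S {i, j} (pos y) (Lz (dep S) (pos y')) (fun v hv => hv.1)
    · intro v hv s hs
      rw [mem_insert, mem_singleton] at hs
      rcases hs with rfl | rfl
      · exact hv.2 _ ((Pool.Agent.Helper894.Div.KL.mem_pos _ _).mpr hyi)
      · exact hv.2 _ ((Pool.Agent.Helper894.Div.KL.mem_pos _ _).mpr hyj)
    · intro v hv t ht
      exact hv.2 _ (hpi t ht)
  have f2 : finrank ℝ (Lz (dep S) (neg y')) ≤
      finrank ℝ (Lz (dep (S \ pts S {i, j})) (neg y)) := by
    have hvi : ∀ v ∈ Lz (dep S) (neg y'), v i = 0 := by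
      intro v hv
      exact hcon' v hv.1 (fun t ht => hv.2 _ (hni t ht))
    apply finrank_down S {i, j} (neg y) (Lz (dep S) (neg y')) (fun v hv => hv.1)
    · intro v hv s hs
      rw [mem_insert, mem_singleton] at hs
      rcases hs with rfl | rfl
      · exact hvi v hv
      · rw [hpar v hv.1, hvi v hv, mul_zero]
    · intro v hv t ht
      exact hv.2 _ (hni t ht)
  have f3 : finrank ℝ (dep (S \ pts S {i, j})) + 1 ≤ finrank ℝ (dep S) := by
    have h := finrank_up S {i, j} ∅ i (by simp) ζ hζ (by simp) hζi.ne'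
    rw [image_empty, Lz_empty, Lz_empty] at h
    exact h
  apply geoDim S k hk y' hyS hnz'
  simp only [rk] at hM ⊢
  omega

end Pool.Agent.V7H26.Div.Pair
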