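import Mathlib
import Pool.Agent.Helper894.Div.Main
import Pool.Agent.Y584.DV.Rec
import Pool.Agent.V7H26.Div.Abs
import Pool.Agent.V7H26.Div.Pair

set_option autoImplicit false

/-! The inductions. -/

namespace Pool.Agent.V7H26.Div.Rec

open Finset Module Pool.Agent.Helper894.Div.Core Pool.Agent.Helper894.Div.KL
  Pool.Agent.Helper894.Div.Main Pool.Agent.Helper894.Div.Dep
  Pool.Agent.Y584.DV.LemA Pool.Agent.Y584.DV.Nice Pool.Agent.Y584.DV.Rec
  Pool.Agent.V7H26.Div.Abs Pool.Agent.V7H26.Div.Pair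

variable {E : Type} [NormedAddCommGroup E] [NormedSpace ℝ E] [DecidableEq E]

lemma mk_nice (S : Finset E) (hnl : ∀ i : S, ∃ y ∈ dep S, y i ≠ 0)
    (hdist : ∀ i j : S, i ≠ j → ∀ c : ℝ, 0 < c → ∃ y ∈ dep S, y j ≠ c * y i) : Nice (dep S) :=
  ⟨⟨fun _ => 1, fun _ => one_pos, fun y hy => by simpa using ((mem_dep S y).mp hy).1⟩, hnl, hdist⟩

variable [FiniteDimensional ℝ E]

lemma nd_max (S : Finset E) (k : ℕ) (hk : 1 ≤ k) (hnd : ¬ Div2 k S) :
    ∀ y ∈ dep S, (∀ i, y i ≠ 0) →
      rk (dep S) (pos y) + rk (dep S) (neg y) < (finrank ℝ (dep S) : ℤ) + k + 1 := by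
  intro y hy hnz
  by_contra hcon
  push Not at hcon
  exact hnd (geoDim S k hk y hy hnz hcon)

/-- The case of small corank, `2k-1` dependencies below a proportional pair. -/
lemma stepA (k : ℕ) (hk : 3 ≤ k) (S : Finset E) (hS : HypG k S) (i j : S) (hij : i ≠ j) (c : ℝ)
    (hc : 0 < c) (hpar : ∀ y ∈ dep S, y j = c * y i) (hi : ∃ y ∈ dep S, y i ≠ 0)
    (hnice : Nice (dep (S \ pts S {i, j})))
    (hl : finrank ℝ (dep (S \ pts S {i, j})) + 1 = 2 * k)
    (hcT : (S \ pts S {i, j}).card ≤ 3 * k + 1)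
    (hc0 : 2 * k + 2 ≤ (S \ pts S {i, j}).card) : Div2 k S := by
  classical
  by_contra hnd
  have hndT : ¬ Div2 k (S \ pts S {i, j}) := fun h => hnd (Div2.mono h sdiff_subset)
  have hST := card_sdiff_pts S {i, j}
  rw [card_pair hij] at hST
  obtain ⟨h3, -⟩ := rem_pair S i j hij c hpar
  obtain ⟨y, hy, hnz, hr, hrk, hcA, hcB⟩ := niceD (dep (S \ pts S {i, j})) hnice
    (dist2 _) k (by omega) (hypA_of_hypG k _ (hS.mono sdiff_subset))
    (by rw [Fintype.card_coe]; exact hc0) hl (by rw [Fintype.card_coe]; omega)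
    (nd_max _ k (by omega) hndT)
  obtain ⟨v, hv, hvi, hv0⟩ := pt S k (by omega) i j c hc hpar hi y hy hnz (by omega) hnd
  obtain ⟨b1, b2, b3, b4, b5, b6, b7⟩ := book (dep (S \ pts S {i, j})) y hnz
  rw [Fintype.card_coe] at b3
  have hQ := finrank_up S {i, j} (neg y \ col (dep (S \ pts S {i, j})) (neg y)) i (by simp) v hv
    (fun t ht => hv0 t (Finset.mem_sdiff.mp ht).1) hvi
  have hcard : ((neg y \ col (dep (S \ pts S {i, j})) (neg y)).image (up S {i, j})).card =
      (neg y \ col (dep (S \ pts S {i, j})) (neg y)).card :=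
    card_image_of_injective _ (up_inj S _)
  have e := exc_large (dep S) k (hypA_of_hypG k S hS) (by rw [Fintype.card_coe]; omega)
    ((neg y \ col (dep (S \ pts S {i, j})) (neg y)).image (up S {i, j}))
  rw [hcard, Fintype.card_coe] at e
  simp only [rk] at e b5 hr hrk
  have e' := e (by omega)
  omega

/-- The case of `3k-3` dependencies below a proportional pair. -/
lemma stepB (k : ℕ) (hk : 3 ≤ k) (S : Finset E) (hS : HypG k S) (i j : S) (hij : i ≠ j) (c : ℝ)
    (hc : 0 < c) (hpar : ∀ y ∈ dep S, y j = c * y i) (hi : ∃ y ∈ dep S, y i ≠ 0)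
    (hnice : Nice (dep (S \ pts S {i, j})))
    (hl : finrank ℝ (dep (S \ pts S {i, j})) + 3 = 3 * k)
    (hc0 : 2 * k + 2 ≤ (S \ pts S {i, j}).card) : Div2 k S := by
  classical
  by_contra hnd
  have hndT : ¬ Div2 k (S \ pts S {i, j}) := fun h => hnd (Div2.mono h sdiff_subset)
  have hST := card_sdiff_pts S {i, j}
  rw [card_pair hij] at hST
  obtain ⟨h3, -⟩ := rem_pair S i j hij c hpar
  obtain ⟨y, hy, hnz, hr, hrk, hf⟩ := niceC (dep (S \ pts S {i, j})) hnice
    (dist2 _) k (by omega) (hypA_of_hypG k _ (hS.mono sdiff_subset))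
    (by rw [Fintype.card_coe]; exact hc0) hl
    (nd_max _ k (by omega) hndT)
  obtain ⟨v, hv, hvi, hv0⟩ := pt S k (by omega) i j c hc hpar hi y hy hnz (by omega) hnd
  obtain ⟨v', hv', hvi', hv0'⟩ := pt S k (by omega) i j c hc hpar hi (-y) (Submodule.neg_mem _ hy)
    (fun t => by simpa using hnz t) (by rw [pos_neg_eq, neg_neg_eq]; omega) hnd
  rw [neg_neg_eq] at hv0'
  obtain ⟨b1, b2, b3, b4, b5, b6, b7⟩ := book (dep (S \ pts S {i, j})) y hnz
  rw [Fintype.card_coe] at b3
  have fQ := finrank_up S {i, j} (neg y \ col (dep (S \ pts S {i, j})) (neg y)) i (by simp) v hv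
    (fun t ht => hv0 t (Finset.mem_sdiff.mp ht).1) hvi
  have fP := finrank_up S {i, j} (pos y \ col (dep (S \ pts S {i, j})) (pos y)) i (by simp) v' hv'
    (fun t ht => hv0' t (Finset.mem_sdiff.mp ht).1) hvi'
  generalize hPd : pos y \ col (dep (S \ pts S {i, j})) (pos y) = P at *
  generalize hQd : neg y \ col (dep (S \ pts S {i, j})) (neg y) = Q at *
  have hcard : ((P ∪ Q).image (up S {i, j})).card = (P ∪ Q).card :=
    card_image_of_injective _ (up_inj S _)
  have e := exc_large (dep S) k (hypA_of_hypG k S hS) (by rw [Fintype.card_coe]; omega)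
    ((P ∪ Q).image (up S {i, j}))
  rw [hcard, Fintype.card_coe] at e
  have hsub := rk_sub (dep S) (P.image (up S {i, j})) (Q.image (up S {i, j}))
  have hnn := rk_nonneg (dep S) (P.image (up S {i, j}) ∩ Q.image (up S {i, j}))
  rw [← image_union] at hsub
  simp only [rk] at e b4 b5 hr hrk hsub hnn
  have e' := e (by omega)
  omega

/-- Sets of corank at most `k+3` with at least `2k` independent dependencies. -/
theorem recA (k : ℕ) (hk : 3 ≤ k) : ∀ n : ℕ, ∀ S : Finset E, S.card = n → HypG k S →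
    2 * k + 2 ≤ S.card → S.card ≤ finrank ℝ (dep S) + k + 3 → 2 * k ≤ finrank ℝ (dep S) →
    Div2 k S := by
  classical
  intro n
  induction n using Nat.strong_induction_on with
  | _ n ih =>
  intro S hSn hS hc0 hc hl
  have hc2 : 3 * k + 2 ≤ S.card := by
    have h1 := dep_le k (S.card - (2 * k + 2)) S hS (by omega)
    omega
  by_cases hnl : ∀ i : S, ∃ y ∈ dep S, y i ≠ 0
  swap
  · push Not at hnl
    obtain ⟨i, hi⟩ := hnl
    obtain ⟨h3, h4⟩ := rem_loop S i hi
    exact Div2.mono (ih (S \ pts S {i}).card (by omega) _ rfl (hS.mono sdiff_subset) (by omega)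
      (by omega) (by omega)) sdiff_subset
  by_cases hdist : ∀ i j : S, i ≠ j → ∀ c : ℝ, 0 < c → ∃ y ∈ dep S, y j ≠ c * y i
  · obtain ⟨y, hy, hnz, hr⟩ := niceA (dep S) (mk_nice S hnl hdist) k (by omega)
      (hypA_of_hypG k S hS) (by rw [Fintype.card_coe]; omega)
      (by rw [Fintype.card_coe]; omega) hl
    exact geoDim S k (by omega) y hy hnz hr
  · push Not at hdist
    obtain ⟨i, j, hij, c, hc', hpar⟩ := hdist
    obtain ⟨h3, h4⟩ := rem_pair S i j hij c hpar
    by_cases h5 : 2 * k ≤ finrank ℝ (dep (S \ pts S {i, j}))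
    · exact Div2.mono (ih (S \ pts S {i, j}).card (by omega) _ rfl (hS.mono sdiff_subset)
        (by omega) (by omega) h5) sdiff_subset
    · have hT : HypG k (S \ pts S {i, j}) := hS.mono sdiff_subset
      have hlT : finrank ℝ (dep (S \ pts S {i, j})) + 1 = 2 * k := by omega
      have hcT := dep_le k ((S \ pts S {i, j}).card - (2 * k + 2)) _ hT (by omega)
      have hcT' : (S \ pts S {i, j}).card = 3 * k + 1 := by omega
      by_cases hnlT : ∀ i' : (S \ pts S {i, j} : Finset E), ∃ y ∈ dep (S \ pts S {i, j}), y i' ≠ 0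
      swap
      · exfalso
        push Not at hnlT
        obtain ⟨i', hi'⟩ := hnlT
        obtain ⟨g3, g4⟩ := rem_loop _ i' hi'
        have g5 := dep_le k (k - 2) _ (hT.mono (sdiff_subset (t := pts _ {i'}))) (by omega)
        omega
      by_cases hdT : ∀ i' j' : (S \ pts S {i, j} : Finset E), i' ≠ j' → ∀ c : ℝ, 0 < c →
          ∃ y ∈ dep (S \ pts S {i, j}), y j' ≠ c * y i'
      · exact stepA k hk S hS i j hij c hc' hpar (hnl i) (mk_nice _ hnlT hdT) hlT (by omega)
          (by omega)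
      · exfalso
        push Not at hdT
        obtain ⟨i', j', hij', c', hc'', hpar'⟩ := hdT
        obtain ⟨g3, g4⟩ := rem_pair _ i' j' hij' c' hpar'
        have g5 := dep_le k (k - 3) _ (hT.mono (sdiff_subset (t := pts _ {i', j'}))) (by omega)
        omega

/-- Sets with at least `3k-2` independent dependencies and few points. -/
theorem recB (k : ℕ) (hk : 4 ≤ k) : ∀ n : ℕ, ∀ S : Finset E, S.card = n → HypG k S →
    2 * k + 2 ≤ S.card → S.card + 2 * k ≤ 2 * finrank ℝ (dep S) + 7 →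
    3 * k ≤ finrank ℝ (dep S) + 2 → Div2 k S := by
  classical
  intro n
  induction n using Nat.strong_induction_on with
  | _ n ih =>
  intro S hSn hS hc0 hc hl
  have hc2 : finrank ℝ (dep S) + k + 2 ≤ S.card := by
    have h1 := dep_le k (S.card - (2 * k + 2)) S hS (by omega)
    omega
  by_cases hnl : ∀ i : S, ∃ y ∈ dep S, y i ≠ 0
  swap
  · push Not at hnl
    obtain ⟨i, hi⟩ := hnl
    obtain ⟨h3, h4⟩ := rem_loop S i hi
    exact Div2.mono (ih (S \ pts S {i}).card (by omega) _ rfl (hS.mono sdiff_subset) (by omega)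
      (by omega) (by omega)) sdiff_subset
  by_cases hdist : ∀ i j : S, i ≠ j → ∀ c : ℝ, 0 < c → ∃ y ∈ dep S, y j ≠ c * y i
  · obtain ⟨y, hy, hnz, hr⟩ := niceB (dep S) (mk_nice S hnl hdist) (dist2 S) k (by omega)
      (hypA_of_hypG k S hS) (by rw [Fintype.card_coe]; omega) hl
    exact geoDim S k (by omega) y hy hnz hr
  · push Not at hdist
    obtain ⟨i, j, hij, c, hc', hpar⟩ := hdist
    obtain ⟨h3, h4⟩ := rem_pair S i j hij c hpar
    by_cases h5 : 3 * k ≤ finrank ℝ (dep (S \ pts S {i, j})) + 2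
    · exact Div2.mono (ih (S \ pts S {i, j}).card (by omega) _ rfl (hS.mono sdiff_subset)
        (by omega) (by omega) h5) sdiff_subset
    · have hT : HypG k (S \ pts S {i, j}) := hS.mono sdiff_subset
      have hlT : finrank ℝ (dep (S \ pts S {i, j})) + 3 = 3 * k := by omega
      by_cases hnlT : ∀ i' : (S \ pts S {i, j} : Finset E), ∃ y ∈ dep (S \ pts S {i, j}), y i' ≠ 0
      swap
      · push Not at hnlT
        obtain ⟨i', hi'⟩ := hnlT
        obtain ⟨g3, g4⟩ := rem_loop _ i' hi'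
        refine Div2.mono (Div2.mono (recA k (by omega) _ _ rfl
          (hT.mono (sdiff_subset (t := pts _ {i'}))) (by omega) (by omega) (by omega))
          sdiff_subset) sdiff_subset
      by_cases hdT : ∀ i' j' : (S \ pts S {i, j} : Finset E), i' ≠ j' → ∀ c : ℝ, 0 < c →
          ∃ y ∈ dep (S \ pts S {i, j}), y j' ≠ c * y i'
      · exact stepB k (by omega) S hS i j hij c hc' hpar (hnl i) (mk_nice _ hnlT hdT) hlT
          (by omega)
      · push Not at hdT
        obtain ⟨i', j', hij', c', hc'', hpar'⟩ := hdT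
        obtain ⟨g3, g4⟩ := rem_pair _ i' j' hij' c' hpar'
        refine Div2.mono (Div2.mono (recA k (by omega) _ _ rfl
          (hT.mono (sdiff_subset (t := pts _ {i', j'}))) (by omega) (by omega) (by omega))
          sdiff_subset) sdiff_subset

lemma card_le_dep (d : ℕ) (hE : finrank ℝ E = d) (T : Finset E) :
    T.card ≤ finrank ℝ (dep T) + (d + 1) := by
  have h1 := LinearMap.finrank_range_add_finrank_ker (depMap T)
  have h2 : finrank ℝ (LinearMap.range (depMap T)) ≤ finrank ℝ (ℝ × E) :=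
    Submodule.finrank_le _
  rw [Module.finrank_prod, finrank_self, hE] at h2
  have h3 : finrank ℝ (T → ℝ) = T.card := by
    rw [Module.finrank_fintype_fun_eq_card, Fintype.card_coe]
  rw [h3] at h1
  change T.card ≤ finrank ℝ (LinearMap.ker (depMap T)) + (d + 1)
  omega

/-- Dimension `k+2`: `3k+3` points suffice. -/
theorem upperA (k : ℕ) (hk : 3 ≤ k) (hE : finrank ℝ E = k + 2) (S : Finset E)
    (hS : HypG k S) (hc : 3 * k + 3 ≤ S.card) : Div2 k S := by
  obtain ⟨T, hT, hTc⟩ := exists_subset_card_eq hc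
  refine Div2.mono ?_ hT
  have hdim := card_le_dep (k + 2) hE T
  exact recA k hk _ T rfl (hS.mono hT) (by omega) (by omega) (by omega)

/-- Dimension `d ≥ k+4`: `2d+2k-5` points suffice. -/
theorem upperB (d k : ℕ) (hk : 4 ≤ k) (hkd : k + 4 ≤ d) (hE : finrank ℝ E = d) (S : Finset E)
    (hS : HypG k S) (hc : 2 * d + 2 * k - 5 ≤ S.card) : Div2 k S := by
  obtain ⟨T, hT, hTc⟩ := exists_subset_card_eq hc
  refine Div2.mono ?_ hT
  have hdim := card_le_dep d hE T
  exact recB k hk _ T rfl (hS.mono hT) (by omega) (by omega) (by omega)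

end Pool.Agent.V7H26.Div.Rec
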