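import Mathlib
import Pool.Agent.V7H26.Div.Rec
import Pool.Agent.V7H26.Div.Half

set_option autoImplicit false

/-! The main induction. -/

namespace Pool.Agent.V7H26.Div.RecC

open Finset Module Pool.Agent.Helper894.Div.Core Pool.Agent.Helper894.Div.KL
  Pool.Agent.Helper894.Div.Main Pool.Agent.Helper894.Div.Dep
  Pool.Agent.Y584.DV.LemA Pool.Agent.Y584.DV.Nice Pool.Agent.Y584.DV.Rec
  Pool.Agent.V7H26.Div.Abs Pool.Agent.V7H26.Div.Pair Pool.Agent.V7H26.Div.Rec
  Pool.Agent.V7H26.Div.Half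

variable {E : Type} [NormedAddCommGroup E] [NormedSpace ℝ E] [DecidableEq E]
variable [FiniteDimensional ℝ E]

/-- Sets with at least `2k` independent dependencies and few points. -/
theorem recC (k : ℕ) (hk : 3 ≤ k) : ∀ n : ℕ, ∀ S : Finset E, S.card = n → HypG k S →
    2 * k + 2 ≤ S.card → S.card + k ≤ 2 * finrank ℝ (dep S) + 3 → 2 * k ≤ finrank ℝ (dep S) →
    Div2 k S := by
  classical
  intro n
  induction n using Nat.strong_induction_on with
  | _ n ih =>
  intro S hSn hS hc0 hc hl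
  by_cases hsm : S.card ≤ finrank ℝ (dep S) + k + 3
  · exact recA k hk _ S rfl hS hc0 hsm hl
  have hc2 : finrank ℝ (dep S) + k + 2 ≤ S.card := by
    have h1 := dep_le k (S.card - (2 * k + 2)) S hS (by omega)
    omega
  by_cases hnl : ∀ i : S, ∃ y ∈ dep S, y i ≠ 0
  swap
  · push Not at hnl
    obtain ⟨i, hi⟩ := hnl
    obtain ⟨h3, h4⟩ := rem_loop S i hi
    exact Div2.mono (ih (S \ pts S {i}).card (by omega) _ rfl (hS.mono sdiff_subset) (by omega)
      (by omega) (by omega)) sdiff_subset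
  by_cases hdist : ∀ i j : S, i ≠ j → ∀ c : ℝ, 0 < c → ∃ y ∈ dep S, y j ≠ c * y i
  · obtain ⟨y, hy, hnz, hr⟩ := niceE (dep S) (mk_nice S hnl hdist) k (by omega)
      (hypA_of_hypG k S hS) (by rw [Fintype.card_coe]; omega) hl
      (by rw [Fintype.card_coe]; omega)
    exact geoDim S k (by omega) y hy hnz hr
  · push Not at hdist
    obtain ⟨i, j, hij, c, hc', hpar⟩ := hdist
    obtain ⟨h3, h4⟩ := rem_pair S i j hij c hpar
    exact Div2.mono (ih (S \ pts S {i, j}).card (by omega) _ rfl (hS.mono sdiff_subset)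
      (by omega) (by omega) (by omega)) sdiff_subset

/-- `2d+k-1` points suffice. -/
theorem upperC (d k : ℕ) (hk : 3 ≤ k) (hkd : k + 2 ≤ d) (hE : finrank ℝ E = d) (S : Finset E)
    (hS : HypG k S) (hc : 2 * d + k - 1 ≤ S.card) : Div2 k S := by
  obtain ⟨T, hT, hTc⟩ := exists_subset_card_eq hc
  refine Div2.mono ?_ hT
  have hdim := card_le_dep d hE T
  exact recC k hk _ T rfl (hS.mono hT) (by omega) (by omega) (by omega)

end Pool.Agent.V7H26.Div.RecC
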